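import Pool.Graph.R_seed8.H826R3.SM.QOne

/-!
# Smoothability of apolar algebras from families of points
-/

set_option autoImplicit false

namespace Pool.Agent.H37.CU

open Pool.Agent.H826R3.SM MvPolynomial
open scoped PowerSeries

variable {k : Type} [Field k]

/-- A finite algebra contained in a smoothable one of the same degree is smoothable. -/
theorem smoothable_of_in {A : Type} [CommRing A] [Algebra k A] {D : ℕ}
    (h : InSmoothable k A D) (hD : D = Module.finrank k A) : Smoothable k A := by
  obtain ⟨B, cB, aB, hB, ⟨𝒜, c1, c2, h1, h2, h3, e, he⟩, hDB, f, hf⟩ := h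
  have hfin : Module.Finite k A := Module.Finite.of_surjective f.toLinearMap hf
  have hinj : Function.Injective f := by
    have := (LinearMap.injective_iff_surjective_of_finrank_eq_finrank (f := f.toLinearMap)
      (by rw [hDB, hD])).2 hf
    exact this
  let g : B ≃ₐ[k] A := AlgEquiv.ofBijective f ⟨hinj, hf⟩
  refine ⟨𝒜, c1, c2, h1, h2, h3, e.trans g.toRingEquiv, fun x => ?_⟩
  change g (e _) = _
  rw [he, g.commutes]

/-- The consequences of the existence of sufficiently few sections. -/
theorem of_hasSec {A : Type} [CommRing A] [Algebra k A] [Module.Finite k A] [Nontrivial A]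
    {T : Type} [Fintype T] (H : HasSec k A T) (hT : Fintype.card T ≤ Module.finrank k A) :
    Smoothable k A ∧ (∀ n : ℕ, defect k (Pow k A n) = 0) ∧ QOne k A ∧
      Module.finrank k A = Fintype.card T := by
  have key : ∀ n : ℕ, defect k (Pow k A n) = 0 := by
    intro n
    obtain ⟨D, hD, hS⟩ := (H.pow n).inSmoothable
    have h1 := finrank_le_of_inSmoothable hS
    have h2 : D = Module.finrank k (Pow k A n) := by
      refine le_antisymm (hD.trans ?_) h1
      rw [finrank_Pow, Fintype.card_fun, Fintype.card_fin]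
      exact Nat.pow_le_pow_left hT n
    have h5 : (0 : ℕ) ∈ {e : ℕ | InSmoothable k (Pow k A n)
        (Module.finrank k (Pow k A n) + e)} := by
      change InSmoothable k (Pow k A n) (Module.finrank k (Pow k A n) + 0)
      rw [add_zero, ← h2]
      exact hS
    exact Nat.le_zero.mp (Nat.sInf_le h5)
  obtain ⟨D, hD, hS⟩ := H.inSmoothable
  have h1 := finrank_le_of_inSmoothable hS
  have h2 : D = Module.finrank k A := le_antisymm (hD.trans hT) h1
  refine ⟨smoothable_of_in hS h2, key, ?_, le_antisymm (h1.trans hD) hT⟩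
  intro ε hε
  simp only [key, Nat.cast_zero, zero_div]
  exact tendsto_const_nhds

/-- A functional on a polynomial ring which is, up to a power of `t` and modulo higher powers, a
combination of finitely many points over `k[[t]]`: these points are sections of the apolar algebra. -/
theorem hasSec_of_moments {τ : Type} (Φ : MvPolynomial τ k →ₗ[k] k)
    [Module.Finite k (ApolarAlg Φ)] {T : Type} [Fintype T] (p : T → τ → k⟦X⟧) (Λ : T → k⟦X⟧) (h : ℕ)
    (hΛ : ∀ F : MvPolynomial τ k, ∃ g : k⟦X⟧, ∑ t, Λ t * aeval (p t) F = PowerSeries.X ^ h * g ∧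
      PowerSeries.constantCoeff g = Φ F) : HasSec k (ApolarAlg Φ) T := by
  let q : MvPolynomial τ k →ₐ[k] ApolarAlg Φ := Ideal.Quotient.mkₐ k (annOf Φ)
  have hq : Function.Surjective q := Ideal.Quotient.mk_surjective
  -- the pairing
  have hker : ∀ F ∈ annOf Φ, Φ F = 0 := fun F hF => by
    have := hF 1
    rwa [mul_one] at this
  let Φ' : ApolarAlg Φ →ₗ[k] k := (Submodule.liftQ ((annOf Φ).restrictScalars k) Φ hker)
  have hΦ' : ∀ F, Φ' (q F) = Φ F := fun F => rfl
  let B : ApolarAlg Φ →ₗ[k] Module.Dual k (ApolarAlg Φ) :=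
    LinearMap.mk₂ k (fun u v => Φ' (u * v)) (fun a b c => by rw [add_mul, map_add])
      (fun a b c => by rw [smul_mul_assoc, map_smul]) (fun a b c => by rw [mul_add, map_add])
      (fun a b c => by rw [mul_smul_comm, map_smul])
  have hBinj : Function.Injective B := by
    rw [injective_iff_map_eq_zero]
    intro u hu
    obtain ⟨F, rfl⟩ := hq u
    refine Ideal.Quotient.eq_zero_iff_mem.2 fun G => ?_
    have h1 : B (q F) (q G) = 0 := by rw [hu]; rfl
    change Φ' (q F * q G) = 0 at h1
    rwa [← map_mul, hΦ'] at h1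
  have hBsurj : Function.Surjective B :=
    (LinearMap.injective_iff_surjective_of_finrank_eq_finrank
      (Subspace.dual_finrank_eq (K := k) (V := ApolarAlg Φ)).symm).1 hBinj
  have h3 : aeval (fun v => q (X v)) = q := (MvPolynomial.aeval_unique q).symm
  refine ⟨τ, fun v => q (X v), p, h, ?_, fun φ => ?_⟩
  · rw [Algebra.adjoin_range_eq_range_aeval, h3]
    exact (AlgHom.range_eq_top q).2 hq
  · obtain ⟨u, hu⟩ := hBsurj φ
    obtain ⟨U, rfl⟩ := hq u
    refine ⟨fun t => Λ t * aeval (p t) U, fun M => ?_⟩
    obtain ⟨g, h1, h2⟩ := hΛ (U * M)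
    refine ⟨g, ?_, ?_⟩
    · rw [← h1]
      refine Finset.sum_congr rfl fun t _ => ?_
      rw [map_mul, mul_assoc]
    · rw [h2, ← hu, h3]
      change _ = Φ' (q U * q M)
      rw [← map_mul, hΦ']

theorem nontrivial_apolar {σ : Type} {Φ : MvPolynomial σ k →ₗ[k] k} (h : Φ ≠ 0) :
    Nontrivial (ApolarAlg Φ) := by
  refine Ideal.Quotient.nontrivial_iff.2 fun htop => h ?_
  have h1 : (1 : MvPolynomial σ k) ∈ annOf Φ := by
    rw [htop]
    exact Submodule.mem_top
  refine LinearMap.ext fun F => ?_
  have h2 := h1 F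
  rwa [one_mul] at h2

end Pool.Agent.H37.CU
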