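import Pool.Agent.H37.CU.Quad

/-!
# Cubature formulas
-/

set_option autoImplicit false

namespace Pool.Agent.H37.CU

open Pool.Agent.H826R3.SM MvPolynomial
open scoped PowerSeries

variable {k : Type} [Field k]

/-- `defect` and powers from sections. -/
theorem defect_le_of_hasSec {A : Type} [CommRing A] [Algebra k A] [Module.Finite k A] [Nontrivial A]
    {T : Type} [Fintype T] (H : HasSec k A T) (m : ℕ) :
    Module.finrank k A ^ m + defect k (Pow k A m) ≤ Fintype.card T ^ m := by
  obtain ⟨D, hD, hS⟩ := (H.pow m).inSmoothable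
  have h1 := finrank_le_of_inSmoothable hS
  rw [Fintype.card_fun, Fintype.card_fin] at hD
  rw [← finrank_Pow]
  have h5 : (D - Module.finrank k (Pow k A m)) ∈ {e : ℕ | InSmoothable k (Pow k A m)
      (Module.finrank k (Pow k A m) + e)} := by
    change InSmoothable k (Pow k A m) (Module.finrank k (Pow k A m) + _)
    rw [Nat.add_sub_cancel' h1]
    exact hS
  have h6 : defect k (Pow k A m) ≤ D - Module.finrank k (Pow k A m) := Nat.sInf_le h5
  omega

/-- The points `P i` with the weights `α i` are a cubature formula for the dual form `Φ` of degree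
`s`: the sum of the values vanishes on all forms of degree less than `s` and is `Φ` on all forms of
degree `s`. -/
def IsCubature {σ : Type} (s : ℕ) (Φ : MvPolynomial σ k →ₗ[k] k) {T : Type} [Fintype T]
    (P : T → σ → k) (α : T → k) : Prop :=
  (∀ d < s, ∀ F : MvPolynomial σ k, F.IsHomogeneous d → ∑ i, α i * eval (P i) F = 0) ∧
    ∀ F : MvPolynomial σ k, F.IsHomogeneous s → ∑ i, α i * eval (P i) F = Φ F

theorem hasSec_of_cubature {σ : Type} {s : ℕ} {Φ : MvPolynomial σ k →ₗ[k] k}
    [Module.Finite k (ApolarAlg Φ)] (hΦ : IsDualForm s Φ) {T : Type} [Fintype T]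
    {P : T → σ → k} {α : T → k} (H : IsCubature s Φ P α) : HasSec k (ApolarAlg Φ) T := by
  refine hasSec_of_moments Φ (fun i v => PowerSeries.C (P i v) * PowerSeries.X ^ 1)
    (fun i => PowerSeries.C (α i)) s fun F => ?_
  induction F using MvPolynomial.induction_on' with
  | add F G hF hG =>
    obtain ⟨f, hf1, hf2⟩ := hF
    obtain ⟨g, hg1, hg2⟩ := hG
    refine ⟨f + g, ?_, by rw [map_add, hf2, hg2, map_add]⟩
    simp only [map_add, mul_add, Finset.sum_add_distrib]
    rw [hf1, hg1]
  | monomial a r =>
    have hmon : (monomial a r : MvPolynomial σ k).IsHomogeneous a.degree :=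
      isHomogeneous_monomial _ rfl
    have key : ∑ i, PowerSeries.C (α i) * aeval (fun v => PowerSeries.C (P i v) *
        PowerSeries.X ^ 1) (monomial a r) =
        PowerSeries.C (∑ i, α i * eval (P i) (monomial a r)) * PowerSeries.X ^ a.degree := by
      rw [map_sum, Finset.sum_mul]
      refine Finset.sum_congr rfl fun i _ => ?_
      rw [aeval_scaled' (P i) 1 a r, one_mul, ← mul_assoc, ← map_mul]
    rw [key]
    rcases lt_trichotomy a.degree s with h | h | h
    · refine ⟨0, ?_, ?_⟩
      · rw [H.1 _ h _ hmon, map_zero, zero_mul, mul_zero]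
      · rw [map_zero, hΦ _ h.ne _ hmon]
    · refine ⟨PowerSeries.C (∑ i, α i * eval (P i) (monomial a r)), by rw [h, mul_comm], ?_⟩
      rw [PowerSeries.constantCoeff_C, H.2 _ (h ▸ hmon)]
    · refine ⟨PowerSeries.C (∑ i, α i * eval (P i) (monomial a r)) *
        PowerSeries.X ^ (a.degree - s), ?_, ?_⟩
      · rw [← mul_assoc, mul_comm (PowerSeries.X ^ s), mul_assoc, ← pow_add,
          Nat.add_sub_cancel' h.le]
      · rw [map_mul, map_pow, PowerSeries.constantCoeff_X, zero_pow (by omega), mul_zero,
          hΦ _ h.ne' _ hmon]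

end Pool.Agent.H37.CU
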