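import Pool.Agent.H37.CU.CubDef
import Pool.Graph.R_seed8.H826R3.SM.WDefs
import Pool.Graph.R_seed8.H826R3.SM.Finiteness
import Pool.Graph.R_seed8.TH671.SD.KUp

/-!
# Existence of cubature formulas
-/

set_option autoImplicit false

namespace Pool.Agent.H37.CU

open Pool.Agent.H826R3.SM MvPolynomial

variable {k σ : Type} [Field k] {s : ℕ} {Φ : MvPolynomial σ k →ₗ[k] k}

theorem eval_scale {d : ℕ} {F : MvPolynomial σ k} (hF : F.IsHomogeneous d) (t : k) (p : σ → k) :
    eval (fun v => t * p v) F = t ^ d * eval p F := by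
  rw [eval_eq, eval_eq, Finset.mul_sum]
  refine Finset.sum_congr rfl fun e he => ?_
  have h1 : e.degree = d := by
    rw [Finsupp.degree_eq_weight_one]
    exact hF (mem_support_iff.mp he)
  simp only [mul_pow, Finset.prod_mul_distrib, Finset.prod_pow_eq_pow_sum]
  rw [← h1, Finsupp.degree_apply]
  ring

/-- There is a cubature formula with `N` points and nonzero weights. -/
def HasCub (s : ℕ) (Φ : MvPolynomial σ k →ₗ[k] k) (N : ℕ) : Prop :=
  ∃ (P : Fin N → σ → k) (α : Fin N → k), (∀ i, α i ≠ 0) ∧ IsCubature s Φ P α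

theorem hasCub_of_cubature {T : Type} [Fintype T] {P : T → σ → k} {α : T → k}
    (H : IsCubature s Φ P α) : ∃ N ≤ Fintype.card T, HasCub s Φ N := by
  classical
  refine ⟨Fintype.card {t // α t ≠ 0}, Fintype.card_subtype_le _, ?_⟩
  let e := (Fintype.equivFin {t // α t ≠ 0}).symm
  have key : ∀ F : MvPolynomial σ k, ∑ i, α (e i).1 * eval (P (e i).1) F =
      ∑ t, α t * eval (P t) F := by
    intro F
    rw [Equiv.sum_comp e (fun t : {t // α t ≠ 0} => α t.1 * eval (P t.1) F),
      ← Finset.sum_subtype (Finset.univ.filter fun t => α t ≠ 0) (by simp)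
        (fun t => α t * eval (P t) F), Finset.sum_filter_of_ne]
    intro t _ ht h
    apply ht
    rw [h, zero_mul]
  refine ⟨fun i => P (e i).1, fun i => α (e i).1, fun i => (e i).2, ?_, ?_⟩
  · intro d hd F hF
    rw [key]
    exact H.1 d hd F hF
  · intro F hF
    rw [key]
    exact H.2 F hF

theorem HasCub.pos (hΦ : IsDualForm s Φ) (h0 : Φ ≠ 0) {N : ℕ} (h : HasCub s Φ N) : 1 ≤ N := by
  rcases Nat.eq_zero_or_pos N with rfl | h'
  · exfalso
    apply h0
    obtain ⟨P, α, -, H⟩ := h
    refine LinearMap.ext fun F => ?_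
    rw [← sum_homogeneousComponent F, map_sum, LinearMap.zero_apply]
    refine Finset.sum_eq_zero fun i _ => ?_
    have hi := homogeneousComponent_isHomogeneous i F
    by_cases h : i = s
    · rw [← H.2 _ (h ▸ hi)]
      simp
    · exact hΦ i h _ hi
  · exact h'

theorem HasCub.succ [Infinite k] {N : ℕ} (h : HasCub s Φ N) (hN : 1 ≤ N) :
    HasCub s Φ (N + 1) := by
  classical
  obtain ⟨P, α, hα, H⟩ := h
  let i₀ : Fin N := ⟨0, hN⟩
  obtain ⟨l, hl⟩ : ∃ l : k, l ∉ ({0, α i₀} : Finset k) := Infinite.exists_notMem_finset _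
  rw [Finset.mem_insert, Finset.mem_singleton, not_or] at hl
  have key : ∀ F : MvPolynomial σ k, ∑ i : Fin (N + 1), (Fin.cons l (Function.update α i₀
      (α i₀ - l)) : Fin (N + 1) → k) i * eval ((Fin.cons (P i₀) P : Fin (N + 1) → σ → k) i) F =
      ∑ i, α i * eval (P i) F := by
    intro F
    rw [Fin.sum_univ_succ, ← Finset.add_sum_erase _ _ (Finset.mem_univ i₀),
      ← Finset.add_sum_erase (Finset.univ) (fun i => α i * eval (P i) F) (Finset.mem_univ i₀)]
    simp only [Fin.cons_zero, Fin.cons_succ, Function.update_self]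
    rw [← add_assoc]
    congr 1
    · ring
    · refine Finset.sum_congr rfl fun i hi => ?_
      rw [Function.update_of_ne (Finset.ne_of_mem_erase hi)]
  refine ⟨Fin.cons (P i₀) P, Fin.cons l (Function.update α i₀ (α i₀ - l)), fun i => ?_, ?_, ?_⟩
  · refine Fin.cases ?_ (fun i => ?_) i
    · rw [Fin.cons_zero]
      exact hl.1
    · rw [Fin.cons_succ]
      rcases eq_or_ne i i₀ with rfl | hi
      · rw [Function.update_self]
        exact sub_ne_zero.2 fun h => hl.2 h.symm
      · rw [Function.update_of_ne hi]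
        exact hα i
  · intro d hd F hF
    rw [key]
    exact H.1 d hd F hF
  · intro F hF
    rw [key]
    exact H.2 F hF

theorem HasCub.mono [Infinite k] {N M : ℕ} (h : HasCub s Φ N) (hN : 1 ≤ N) (hM : N ≤ M) :
    HasCub s Φ M := by
  induction M, hM using Nat.le_induction with
  | base => exact h
  | succ M hM ih => exact ih.succ (hN.trans hM)

/-- Extraction of the top coefficient from the values at `0` and at `s` other points. -/
theorem exists_scalars [Infinite k] (s : ℕ) : ∃ (t : Fin (s + 1) → k) (w : Fin (s + 1) → k),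
    t 0 = 0 ∧ ∀ d ≤ s, ∑ j, w j * t j ^ d = if d = s then 1 else 0 := by
  obtain ⟨c⟩ : Nonempty (Fin (s + 1) ↪ k) := ⟨(Fin.valEmbedding).trans (Infinite.natEmbedding k)⟩
  have hinj : Set.InjOn (fun i => c i - c 0) (Finset.univ : Finset (Fin (s + 1))) := by
    intro i _ j _ h
    exact c.injective (sub_left_inj.1 h)
  refine ⟨fun i => c i - c 0, fun i => (∏ j ∈ Finset.univ.erase i, ((c i - c 0) - (c j - c 0)))⁻¹,
    sub_self _, fun d hd => ?_⟩
  have h1 := Lagrange.coeff_eq_sum (s := (Finset.univ : Finset (Fin (s + 1))))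
    (v := fun i => c i - c 0) hinj (P := (Polynomial.X ^ d : Polynomial k)) (by
      rw [Finset.card_univ, Fintype.card_fin, Polynomial.degree_X_pow]
      exact_mod_cast Nat.lt_succ_of_le hd)
  rw [Finset.card_univ, Fintype.card_fin, Nat.add_sub_cancel, Polynomial.coeff_X_pow] at h1
  have h2 : (if d = s then (1 : k) else 0) = if s = d then 1 else 0 := if_congr eq_comm rfl rfl
  rw [h2, h1]
  refine Finset.sum_congr rfl fun i _ => ?_
  rw [Polynomial.eval_pow, Polynomial.eval_X, div_eq_mul_inv, mul_comm]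

theorem cubature_of_waring [Infinite k] {r : ℕ} (h : WaringLE s Φ r) :
    ∃ (P : Option (Fin s × Fin r) → σ → k) (α : Option (Fin s × Fin r) → k),
      IsCubature s Φ P α := by
  obtain ⟨c, p, hcp⟩ := h
  obtain ⟨t, w, ht, hw⟩ := exists_scalars (k := k) s
  have key : ∀ d ≤ s, ∀ F : MvPolynomial σ k, F.IsHomogeneous d →
      w 0 * (∑ i, c i) * eval 0 F + ∑ x : Fin s × Fin r, w x.1.succ * c x.2 *
        eval (fun v => t x.1.succ * p x.2 v) F = if d = s then ∑ i, c i * eval (p i) F else 0 := by
    intro d hd F hF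
    have h0 : ∀ i, eval 0 F = t 0 ^ d * eval (p i) F := by
      intro i
      rw [← eval_scale hF, ht]
      congr 1
      have : (fun v => (0 : k) * p i v) = 0 := by
        funext v
        exact zero_mul _
      rw [this]
    have h1 : w 0 * (∑ i, c i) * eval 0 F = ∑ i, c i * eval (p i) F * (w 0 * t 0 ^ d) := by
      rw [Finset.mul_sum, Finset.sum_mul]
      refine Finset.sum_congr rfl fun i _ => ?_
      rw [h0 i]
      ring
    have h2 : ∑ x : Fin s × Fin r, w x.1.succ * c x.2 * eval (fun v => t x.1.succ * p x.2 v) F =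
        ∑ i, c i * eval (p i) F * ∑ j : Fin s, w j.succ * t j.succ ^ d := by
      rw [Fintype.sum_prod_type, Finset.sum_comm]
      refine Finset.sum_congr rfl fun i _ => ?_
      rw [Finset.mul_sum]
      refine Finset.sum_congr rfl fun j _ => ?_
      rw [eval_scale hF]
      ring
    rw [h1, h2, ← Finset.sum_add_distrib]
    have h3 : ∀ i, c i * eval (p i) F * (w 0 * t 0 ^ d) + c i * eval (p i) F *
        ∑ j : Fin s, w j.succ * t j.succ ^ d = c i * eval (p i) F * if d = s then 1 else 0 := by
      intro i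
      rw [← mul_add, ← hw d hd, Fin.sum_univ_succ]
    rw [Finset.sum_congr rfl fun i _ => h3 i]
    split_ifs
    · simp only [mul_one]
    · simp only [mul_zero, Finset.sum_const_zero]
  refine ⟨fun o => o.elim 0 fun x v => t x.1.succ * p x.2 v,
    fun o => o.elim (w 0 * ∑ i, c i) fun x => w x.1.succ * c x.2, ?_, ?_⟩
  · intro d hd F hF
    rw [Fintype.sum_option]
    have := key d hd.le F hF
    rw [if_neg hd.ne] at this
    exact this
  · intro F hF
    rw [Fintype.sum_option]
    have := key s le_rfl F hF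
    rw [if_pos rfl, ← hcp F hF] at this
    exact this

theorem exists_waringLE [Finite σ] [Infinite k] (hΦ : IsDualForm s Φ) : ∃ r, WaringLE s Φ r := by
  classical
  have := Fintype.ofFinite σ
  obtain ⟨c⟩ : Nonempty (Fin (s + 1) ↪ k) := ⟨(Fin.valEmbedding).trans (Infinite.natEmbedding k)⟩
  let L : (σ → Fin (s + 1)) → (MvPolynomial σ k →ₗ[k] k) := fun t =>
    (aeval (R := k) (gp c t)).toLinearMap ∘ₗ homogeneousComponent s
  have hL : ∀ t F, L t F = eval (gp c t) (homogeneousComponent s F) := fun t F => rfl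
  have hμ : Φ ∈ Submodule.span k (Set.range L) := by
    refine mem_span_of_iInf_ker_le_ker fun F hF => ?_
    rw [Submodule.mem_iInf] at hF
    have h1 : homogeneousComponent s F = 0 := by
      refine component_eq_zero c c.injective le_rfl F fun t => ?_
      have := hF t
      rw [LinearMap.mem_ker, hL] at this
      exact this
    rw [LinearMap.mem_ker, ← sum_homogeneousComponent F, map_sum]
    refine Finset.sum_eq_zero fun i _ => ?_
    by_cases h : i = s
    · rw [h, h1, map_zero]
    · exact hΦ i h _ (homogeneousComponent_isHomogeneous i F)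
  rw [Submodule.mem_span_range_iff_exists_fun] at hμ
  obtain ⟨w, hw⟩ := hμ
  let e := (Fintype.equivFin (σ → Fin (s + 1))).symm
  refine ⟨_, fun i => w (e i), fun i => gp c (e i), fun F hF => ?_⟩
  rw [← hw, LinearMap.sum_apply, Equiv.sum_comp e (fun t => w t * eval (gp c t) F)]
  refine Finset.sum_congr rfl fun t _ => ?_
  rw [LinearMap.smul_apply, hL, smul_eq_mul, homogeneousComponent_of_mem hF, if_pos rfl]

theorem waringLE_waringRank [Finite σ] [Infinite k] (hΦ : IsDualForm s Φ) :
    WaringLE s Φ (waringRank s Φ) := Nat.sInf_mem (exists_waringLE hΦ)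

/-- Cubature formulas from Waring decompositions. -/
theorem hasCub_waringRank [Finite σ] [Infinite k] (hΦ : IsDualForm s Φ) (h0 : Φ ≠ 0) {N : ℕ}
    (hN : s * waringRank s Φ + 1 ≤ N) : HasCub s Φ N := by
  obtain ⟨P, α, H⟩ := cubature_of_waring (waringLE_waringRank hΦ)
  obtain ⟨M, hM, H'⟩ := hasCub_of_cubature H
  rw [Fintype.card_option, Fintype.card_prod, Fintype.card_fin, Fintype.card_fin] at hM
  exact H'.mono (H'.pos hΦ h0) (hM.trans hN)

end Pool.Agent.H37.CU
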