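import Mathlib

/-!
# Injectivity of inclusion matrices, and weights on the levels of the Boolean lattice
-/

set_option autoImplicit false

namespace Pool.Agent.H37.CU

variable {k α : Type} [Field k] [DecidableEq α]

/-- The inclusion matrix of the `j`-subsets and `m`-subsets of a set with at least `j + m` elements
has trivial kernel, for `j ≤ m` and small factorials invertible. -/
theorem inclusion_inj (j : ℕ) : ∀ (m : ℕ) (V : Finset α) (c : Finset α → k), j ≤ m →
    j + m ≤ V.card → (m.factorial : k) ≠ 0 →
    (∀ S, S ⊆ V → S.card = m → ∑ U ∈ S.powersetCard j, c U = 0) →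
    ∀ U, U ⊆ V → U.card = j → c U = 0 := by
  induction j with
  | zero =>
    intro m V c _ hV _ h U _ hU
    obtain ⟨S, hS, hSc⟩ := Finset.exists_subset_card_eq (show m ≤ V.card by omega)
    have := h S hS hSc
    rw [Finset.powersetCard_zero, Finset.sum_singleton] at this
    rw [Finset.card_eq_zero.1 hU]
    exact this
  | succ j ih =>
    intro m V c hjm hV hm h
    obtain ⟨m, rfl⟩ : ∃ m', m = m' + 1 := ⟨m - 1, by omega⟩
    -- swapping two elements
    have swap : ∀ a b R, a ∈ V → b ∈ V → R ⊆ V → a ∉ R → b ∉ R → R.card = j →
        c (insert a R) = c (insert b R) := by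
      intro a b R ha hb hR haR hbR hRc
      rcases eq_or_ne a b with rfl | hab
      · rfl
      have hV' : ((V.erase a).erase b).card = V.card - 2 := by
        rw [Finset.card_erase_of_mem (Finset.mem_erase.2 ⟨hab.symm, hb⟩),
          Finset.card_erase_of_mem ha]
        omega
      have hm' : (m.factorial : k) ≠ 0 := by
        intro h0
        apply hm
        rw [Nat.factorial_succ, Nat.cast_mul, h0, mul_zero]
      have key := ih m ((V.erase a).erase b) (fun R => c (insert a R) - c (insert b R)) (by omega)
        (by omega) hm' ?_ R ?_ hRc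
      · exact sub_eq_zero.1 key
      · intro S hS hSc
        have haS : a ∉ S := fun h => by
          have := hS h
          simp at this
        have hbS : b ∉ S := fun h => by
          have := hS h
          simp at this
        have hSV : S ⊆ V := fun x hx => Finset.mem_of_mem_erase (Finset.mem_of_mem_erase (hS hx))
        have e : ∀ x, x ∈ V → x ∉ S → ∑ U ∈ S.powersetCard (j + 1), c U +
            ∑ U ∈ S.powersetCard j, c (insert x U) = 0 := by
          intro x hx hxS
          have h1 := h (insert x S) (Finset.insert_subset hx hSV)
            (by rw [Finset.card_insert_of_notMem hxS, hSc])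
          rw [Finset.powersetCard_succ_insert hxS, Finset.sum_union, Finset.sum_image] at h1
          · exact h1
          · intro U hU U' hU' hUU
            have h2 : x ∉ U := fun h => hxS ((Finset.mem_powersetCard.1 hU).1 h)
            have h3 : x ∉ U' := fun h => hxS ((Finset.mem_powersetCard.1 hU').1 h)
            rw [← Finset.erase_insert h2, ← Finset.erase_insert h3]
            change (insert x U).erase x = (insert x U').erase x
            rw [show insert x U = insert x U' from hUU]
          · rw [Finset.disjoint_left]
            intro U hU hU'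
            obtain ⟨U', -, rfl⟩ := Finset.mem_image.1 hU'
            exact hxS ((Finset.mem_powersetCard.1 hU).1 (Finset.mem_insert_self _ _))
        rw [Finset.sum_sub_distrib]
        linear_combination e a ha haS - e b hb hbS
      · intro x hx
        refine Finset.mem_erase.2 ⟨?_, Finset.mem_erase.2 ⟨?_, hR hx⟩⟩
        · rintro rfl
          exact hbR hx
        · rintro rfl
          exact haR hx
    -- all values are equal
    have all : ∀ d : ℕ, ∀ U U', U ⊆ V → U' ⊆ V → U.card = j + 1 → U'.card = j + 1 →
        (U \ U').card = d → c U = c U' := by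
      intro d
      induction d with
      | zero =>
        intro U U' hU hU' hUc hUc' hd
        have h1 : U ⊆ U' := Finset.sdiff_eq_empty_iff_subset.1 (Finset.card_eq_zero.1 hd)
        rw [Finset.eq_of_subset_of_card_le h1 (by omega)]
      | succ d ihd =>
        intro U U' hU hU' hUc hUc' hd
        have hd' : (U' \ U).card = d + 1 := by
          have h1 := Finset.card_sdiff_add_card_inter U U'
          have h2 := Finset.card_sdiff_add_card_inter U' U
          rw [Finset.inter_comm] at h2
          omega
        obtain ⟨a, ha⟩ := Finset.card_pos.1 (show 0 < (U \ U').card by omega)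
        obtain ⟨b, hb⟩ := Finset.card_pos.1 (show 0 < (U' \ U).card by omega)
        rw [Finset.mem_sdiff] at ha hb
        have hbR : b ∉ U.erase a := fun h => hb.2 (Finset.mem_of_mem_erase h)
        have h1 : c (insert a (U.erase a)) = c (insert b (U.erase a)) :=
          swap a b (U.erase a) (hU ha.1) (hU' hb.1) ((Finset.erase_subset _ _).trans hU)
            (Finset.notMem_erase _ _) hbR (by rw [Finset.card_erase_of_mem ha.1, hUc]; rfl)
        rw [Finset.insert_erase ha.1] at h1
        rw [h1]
        refine ihd _ _ ?_ hU' ?_ hUc' ?_
        · exact Finset.insert_subset (hU' hb.1) ((Finset.erase_subset _ _).trans hU)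
        · rw [Finset.card_insert_of_notMem hbR, Finset.card_erase_of_mem ha.1, hUc]
          rfl
        · rw [Finset.insert_sdiff_of_mem _ hb.1, Finset.erase_sdiff_comm,
            Finset.card_erase_of_mem (Finset.mem_sdiff.2 ha), hd]
          rfl
    intro U hU hUc
    obtain ⟨S, hUS, hSV, hSc⟩ := Finset.exists_subsuperset_card_eq hU (show U.card ≤ m + 1 by omega)
      (show m + 1 ≤ V.card by omega)
    have h1 := h S hSV hSc
    have h2 : ∑ U' ∈ S.powersetCard (j + 1), c U' = ((m + 1).choose (j + 1) : k) * c U := by
      rw [Finset.sum_congr rfl fun U' hU' => (all (U \ U').card U U' hU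
        ((Finset.mem_powersetCard.1 hU').1.trans hSV) hUc (Finset.mem_powersetCard.1 hU').2 rfl).symm,
        Finset.sum_const, Finset.card_powersetCard, hSc, nsmul_eq_mul]
    rw [h2] at h1
    refine (mul_eq_zero.1 h1).resolve_left fun h0 => hm ?_
    have h3 := Nat.choose_mul_factorial_mul_factorial (show j + 1 ≤ m + 1 by omega)
    rw [← h3, Nat.cast_mul, Nat.cast_mul, h0, zero_mul, zero_mul]

/-- The number of sets of a given size which contain a given set, in terms of binomial
coefficients. -/
theorem count_supersets [Fintype α] (R : Finset α) (i : ℕ) :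
    ((Finset.univ.powersetCard i).filter (fun U : Finset α => R ⊆ U)).card *
      (Fintype.card α).choose R.card = (Fintype.card α).choose i * i.choose R.card := by
  rcases lt_or_ge i R.card with hi | hi
  · rw [Nat.choose_eq_zero_of_lt hi, mul_zero, Finset.filter_eq_empty_iff.2, Finset.card_empty,
      zero_mul]
    intro U hU hRU
    have := Finset.card_le_card hRU
    rw [(Finset.mem_powersetCard.1 hU).2] at this
    omega
  · have h1 : ((Finset.univ.powersetCard i).filter (fun U : Finset α => R ⊆ U)).card =
        ((Finset.univ \ R).powersetCard (i - R.card)).card := by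
      refine Finset.card_bij' (fun U _ => U \ R) (fun U _ => U ∪ R) ?_ ?_ ?_ ?_
      · intro U hU
        rw [Finset.mem_filter, Finset.mem_powersetCard] at hU
        rw [Finset.mem_powersetCard]
        refine ⟨Finset.sdiff_subset_sdiff (Finset.subset_univ _) (subset_refl _), ?_⟩
        rw [Finset.card_sdiff_of_subset hU.2, hU.1.2]
      · intro U hU
        rw [Finset.mem_powersetCard] at hU
        rw [Finset.mem_filter, Finset.mem_powersetCard]
        refine ⟨⟨Finset.subset_univ _, ?_⟩, Finset.subset_union_right⟩
        rw [Finset.card_union_of_disjoint, hU.2]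
        · omega
        · rw [Finset.disjoint_left]
          intro x hx hx'
          exact (Finset.mem_sdiff.1 (hU.1 hx)).2 hx'
      · intro U hU
        rw [Finset.mem_filter] at hU
        exact Finset.sdiff_union_of_subset hU.2
      · intro U hU
        rw [Finset.mem_powersetCard] at hU
        rw [Finset.union_sdiff_cancel_right]
        rw [Finset.disjoint_left]
        intro x hx hx'
        exact (Finset.mem_sdiff.1 (hU.1 hx)).2 hx'
    rw [h1, Finset.card_powersetCard, Finset.card_sdiff_of_subset (Finset.subset_univ _),
      Finset.card_univ]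
    rcases lt_or_ge (Fintype.card α) i with hn | hn
    · rw [Nat.choose_eq_zero_of_lt hn, zero_mul, mul_eq_zero]
      left
      apply Nat.choose_eq_zero_of_lt
      have := Finset.card_le_univ R
      omega
    · rw [Nat.choose_mul hi, mul_comm]

open Polynomial in
/-- Weights on `s + 1` levels. -/
theorem exists_weights (n s : ℕ) (I : Finset ℕ) (hI : ∀ i ∈ I, i ≤ n) (hc : I.card = s + 1)
    (hn : (n.factorial : k) ≠ 0) : ∃ w : ℕ → k, ∀ r ≤ s,
      ∑ i ∈ I, w i * (i.choose r : k) = if r = s then 1 else 0 := by
  have hinj : Set.InjOn (fun i : ℕ => (i : k)) I := by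
    have : ∀ i j : ℕ, i < j → j ≤ n → (i : k) ≠ j := by
      intro i j hij hjn h
      apply hn
      have h1 : ((j - i : ℕ) : k) = 0 := by
        rw [Nat.cast_sub hij.le, h, sub_self]
      obtain ⟨d, hd⟩ : (j - i) ∣ n.factorial := Nat.dvd_factorial (by omega) (by omega)
      rw [hd, Nat.cast_mul, h1, zero_mul]
    intro i hi j hj h
    rcases lt_trichotomy i j with h' | h' | h'
    · exact absurd h (this i j h' (hI j hj))
    · exact h'
    · exact absurd h.symm (this j i h' (hI i hi))
  have hsn : s ≤ n := by
    have h1 : I ⊆ Finset.range (n + 1) := fun i hi => Finset.mem_range.2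
      (Nat.lt_succ_of_le (hI i hi))
    have h2 := Finset.card_le_card h1
    rw [Finset.card_range, hc] at h2
    omega
  have hfac : ∀ r ≤ s, (r.factorial : k) ≠ 0 := by
    intro r hr h0
    apply hn
    obtain ⟨d, hd⟩ := Nat.factorial_dvd_factorial (hr.trans hsn)
    rw [hd, Nat.cast_mul, h0, zero_mul]
  refine ⟨fun i => (s.factorial : k) * (∏ j ∈ I.erase i, ((i : k) - j))⁻¹, fun r hr => ?_⟩
  have h1 := Lagrange.coeff_eq_sum (s := I) (v := fun i : ℕ => (i : k)) hinj
    (P := descPochhammer k r) (by
      rw [hc]
      refine lt_of_le_of_lt degree_le_natDegree ?_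
      rw [descPochhammer_natDegree]
      exact_mod_cast Nat.lt_succ_of_le hr)
  rw [hc, Nat.add_sub_cancel] at h1
  have h2 : ∀ i : ℕ, (descPochhammer k r).eval (i : k) = (r.factorial : k) * (i.choose r : k) := by
    intro i
    rw [descPochhammer_eval_eq_descFactorial, Nat.descFactorial_eq_factorial_mul_choose,
      Nat.cast_mul]
  simp only [h2] at h1
  have h3 : ∑ i ∈ I, (s.factorial : k) * (∏ j ∈ I.erase i, ((i : k) - j))⁻¹ * (i.choose r : k) =
      (s.factorial : k) * ((r.factorial : k)⁻¹ * (descPochhammer k r).coeff s) := by
    rw [h1, Finset.mul_sum, Finset.mul_sum]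
    refine Finset.sum_congr rfl fun i _ => ?_
    rw [div_eq_mul_inv, mul_assoc (r.factorial : k), ← mul_assoc (r.factorial : k)⁻¹,
      inv_mul_cancel₀ (hfac r hr), one_mul]
    ring
  rw [h3]
  split_ifs with h
  · subst h
    have h4 : (descPochhammer k r).coeff r = 1 := by
      have := monic_descPochhammer k r
      rw [Monic, leadingCoeff, descPochhammer_natDegree] at this
      exact this
    rw [h4, mul_one, mul_inv_cancel₀ (hfac r le_rfl)]
  · rw [coeff_eq_zero_of_natDegree_lt (by rw [descPochhammer_natDegree]; omega), mul_zero, mul_zero]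

end Pool.Agent.H37.CU
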