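import Pool.Agent.H37.CU.Basic

/-!
# Sums of a form and a quadratic form in new variables
-/

set_option autoImplicit false

namespace Pool.Agent.H37.CU

open Pool.Agent.H826R3.SM MvPolynomial
open scoped PowerSeries

variable {k σ : Type} [Field k]

/-- The functional of the polynomial `Φ + y₁² + ⋯ + y_c²` with new variables `y_l` (in divided
powers): the value at `F` is the value of `Φ` at `F (x, 0)` plus the sum of the coefficients of the
monomials `y_l²` in `F`. -/
noncomputable def quadSum (Φ : MvPolynomial σ k →ₗ[k] k) (c : ℕ) :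
    MvPolynomial (σ ⊕ Fin c) k →ₗ[k] k :=
  Φ ∘ₗ (aeval (Sum.elim X fun _ => 0) : MvPolynomial (σ ⊕ Fin c) k →ₐ[k] MvPolynomial σ k).toLinearMap
    + ∑ l : Fin c, lcoeff k (Finsupp.single (Sum.inr l) 2)

variable {Φ : MvPolynomial σ k →ₗ[k] k} {c : ℕ}

theorem quadSum_apply (F : MvPolynomial (σ ⊕ Fin c) k) :
    quadSum Φ c F = Φ (aeval (Sum.elim X fun _ => 0) F) +
      ∑ l : Fin c, coeff (Finsupp.single (Sum.inr l) 2) F := by
  unfold quadSum
  rw [LinearMap.add_apply, LinearMap.sum_apply]
  rfl

/-- The splitting of an exponent. -/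
theorem split_exp (e : σ ⊕ Fin c →₀ ℕ) : ∃ (a : σ →₀ ℕ) (b : Fin c →₀ ℕ),
    e = a.mapDomain Sum.inl + b.mapDomain Sum.inr := by
  classical
  refine ⟨e.comapDomain Sum.inl Sum.inl_injective.injOn,
    e.comapDomain Sum.inr Sum.inr_injective.injOn, ?_⟩
  ext v
  rw [Finsupp.add_apply]
  rcases v with v | v
  · rw [Finsupp.mapDomain_apply Sum.inl_injective, Finsupp.comapDomain_apply,
      Finsupp.mapDomain_of_notMem_range, add_zero]
    rintro ⟨x, hx⟩
    cases hx
  · rw [Finsupp.mapDomain_apply Sum.inr_injective, Finsupp.comapDomain_apply,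
      Finsupp.mapDomain_of_notMem_range, zero_add]
    rintro ⟨x, hx⟩
    cases hx

theorem inl_val (a : σ →₀ ℕ) (b : Fin c →₀ ℕ) (v : σ) :
    (a.mapDomain Sum.inl + b.mapDomain Sum.inr : σ ⊕ Fin c →₀ ℕ) (Sum.inl v) = a v := by
  rw [Finsupp.add_apply, Finsupp.mapDomain_apply Sum.inl_injective,
    Finsupp.mapDomain_of_notMem_range, add_zero]
  rintro ⟨x, hx⟩
  cases hx

theorem inr_val (a : σ →₀ ℕ) (b : Fin c →₀ ℕ) (v : Fin c) :
    (a.mapDomain Sum.inl + b.mapDomain Sum.inr : σ ⊕ Fin c →₀ ℕ) (Sum.inr v) = b v := by
  rw [Finsupp.add_apply, Finsupp.mapDomain_apply Sum.inr_injective,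
    Finsupp.mapDomain_of_notMem_range, zero_add]
  rintro ⟨x, hx⟩
  cases hx

theorem split_mon (a : σ →₀ ℕ) (b : Fin c →₀ ℕ) (r : k) :
    (monomial (a.mapDomain Sum.inl + b.mapDomain Sum.inr : σ ⊕ Fin c →₀ ℕ) r) =
      rename Sum.inl (monomial a r) * rename Sum.inr (monomial b 1) := by
  rw [rename_monomial, rename_monomial, monomial_mul, mul_one]

theorem aeval_scaled' {τ : Type} (x : τ → k) (d : ℕ) (e : τ →₀ ℕ) (r : k) :
    aeval (fun i => (PowerSeries.C (x i) * PowerSeries.X ^ d : k⟦X⟧)) (monomial e r) =
      PowerSeries.C (eval x (monomial e r)) * PowerSeries.X ^ (d * e.degree) := by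
  rw [aeval_monomial, eval_monomial]
  have h : (e.prod fun i n => (PowerSeries.C (x i) * PowerSeries.X ^ d : k⟦X⟧) ^ n) =
      PowerSeries.C (e.prod fun i n => x i ^ n) * PowerSeries.X ^ (d * e.degree) := by
    simp only [Finsupp.prod, mul_pow, Finset.prod_mul_distrib, map_prod, map_pow]
    congr 1
    rw [Finsupp.degree_apply, Finset.mul_sum, ← Finset.prod_pow_eq_pow_sum]
    exact Finset.prod_congr rfl fun i _ => by rw [← pow_mul]
  rw [h, map_mul, ← mul_assoc]
  rfl

open Classical in
/-- The functional on the monomials. -/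
theorem quadSum_mon (a : σ →₀ ℕ) (b : Fin c →₀ ℕ) (r : k) :
    quadSum Φ c (monomial (a.mapDomain Sum.inl + b.mapDomain Sum.inr) r) =
      (if b = 0 then Φ (monomial a r) else 0) +
        ∑ l : Fin c, if a = 0 ∧ b = Finsupp.single l 2 then r else 0 := by
  rw [quadSum_apply]
  congr 1
  · rw [split_mon, map_mul, aeval_rename, aeval_rename]
    have h1 : aeval ((Sum.elim X fun _ : Fin c => (0 : MvPolynomial σ k)) ∘ Sum.inl) (monomial a r)
        = monomial a r := by
      have : ((Sum.elim X fun _ : Fin c => (0 : MvPolynomial σ k)) ∘ Sum.inl) = X := rfl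
      rw [this, aeval_X_left_apply]
    rw [h1, aeval_monomial]
    split_ifs with h
    · rw [h]
      simp
    · obtain ⟨l, hl⟩ := Finsupp.ne_iff.1 h
      have h2 : (b.prod fun i n => ((Sum.elim X fun _ : Fin c => (0 : MvPolynomial σ k)) ∘
          Sum.inr) i ^ n) = 0 := by
        refine Finset.prod_eq_zero (i := l) (Finsupp.mem_support_iff.2 hl) ?_
        change (0 : MvPolynomial σ k) ^ b l = 0
        exact zero_pow hl
      rw [h2, mul_zero, mul_zero, map_zero]
  · refine Finset.sum_congr rfl fun l _ => ?_
    rw [coeff_monomial]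
    refine if_congr ?_ rfl rfl
    constructor
    · intro h
      constructor
      · ext v
        rw [← inl_val a b v, h]
        simp
      · ext v
        rw [← inr_val a b v, h]
        by_cases hv : l = v
        · subst hv; simp
        · have hv' : ¬ (Sum.inr l : σ ⊕ Fin c) = Sum.inr v := fun h => hv (Sum.inr_injective h)
          have e1 : (Finsupp.single (Sum.inr l : σ ⊕ Fin c) 2) (Sum.inr v) = 0 := by
            rw [Finsupp.single_apply, if_neg hv']
          have e2 : (Finsupp.single l 2 : Fin c →₀ ℕ) v = 0 := by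
            rw [Finsupp.single_apply, if_neg hv]
          rw [e1, e2]
    · rintro ⟨rfl, rfl⟩
      rw [Finsupp.mapDomain_zero, zero_add, Finsupp.mapDomain_single]

/-- The conditions on the points `P i`, the weights `α i` and the vectors `y l`. -/
structure Cub (s : ℕ) (Φ : MvPolynomial σ k →ₗ[k] k) {T : Type} [Fintype T] (P : T → σ → k)
    (α : T → k) (y : Fin c → T → k) : Prop where
  low : ∀ n < s, ∀ F : MvPolynomial σ k, F.IsHomogeneous n → ∑ i, α i * eval (P i) F = 0
  top : ∀ F : MvPolynomial σ k, F.IsHomogeneous s → ∑ i, α i * eval (P i) F = Φ F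
  orth : ∀ l n, 2 * n ≤ s → ∀ F : MvPolynomial σ k, F.IsHomogeneous n →
    ∑ i, α i * (y l i * eval (P i) F) = 0
  norm : ∀ l l', ∑ i, α i * (y l i * y l' i) = if l = l' then 1 else 0

theorem deg_one {τ : Type} {b : τ →₀ ℕ} (h : b.degree = 1) : ∃ l, b = Finsupp.single l 1 := by
  obtain ⟨l, hl⟩ : ∃ l, b l ≠ 0 := by
    by_contra hcon
    push Not at hcon
    have : b = 0 := Finsupp.ext hcon
    rw [this] at h
    simp at h
  refine ⟨l, ?_⟩
  obtain ⟨b', hb'⟩ : ∃ b', b = Finsupp.single l 1 + b' :=
    ⟨b - Finsupp.single l 1, (add_tsub_cancel_of_le (Finsupp.single_le_iff.2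
      (Nat.one_le_iff_ne_zero.2 hl))).symm⟩
  rw [hb', map_add, Finsupp.degree_single] at h
  have h2 : b'.degree = 0 := by omega
  rw [Finsupp.degree_eq_zero_iff] at h2
  rw [hb', h2, add_zero]

theorem deg_two {b : Fin c →₀ ℕ} (h : b.degree = 2) :
    ∃ l l', b = Finsupp.single l 1 + Finsupp.single l' 1 := by
  obtain ⟨l, hl⟩ : ∃ l, b l ≠ 0 := by
    by_contra hcon
    push Not at hcon
    have : b = 0 := Finsupp.ext hcon
    rw [this] at h
    simp at h
  obtain ⟨b', hb'⟩ : ∃ b', b = Finsupp.single l 1 + b' :=
    ⟨b - Finsupp.single l 1, (add_tsub_cancel_of_le (Finsupp.single_le_iff.2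
      (Nat.one_le_iff_ne_zero.2 hl))).symm⟩
  rw [hb', map_add, Finsupp.degree_single] at h
  obtain ⟨l', hl'⟩ := deg_one (b := b') (by omega)
  exact ⟨l, l', by rw [hb', hl']⟩

theorem pair_single {l l' l'' : Fin c} :
    (Finsupp.single l 1 + Finsupp.single l' 1 : Fin c →₀ ℕ) = Finsupp.single l'' 2 ↔
      l = l'' ∧ l' = l'' := by
  constructor
  · intro h
    have h1 := DFunLike.congr_fun h l
    have h2 := DFunLike.congr_fun h l'
    rw [Finsupp.add_apply, Finsupp.single_apply, Finsupp.single_apply, Finsupp.single_apply] at h1 h2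
    constructor
    · by_contra hne
      have hne' : ¬ l'' = l := fun h => hne h.symm
      rw [if_neg hne', if_pos rfl] at h1
      omega
    · by_contra hne
      have hne' : ¬ l'' = l' := fun h => hne h.symm
      rw [if_neg hne', if_pos rfl] at h2
      omega
  · rintro ⟨rfl, rfl⟩
    rw [← Finsupp.single_add]

theorem moments {s : ℕ} (hs : 1 ≤ s) (hΦ : IsDualForm s Φ) {T : Type} [Fintype T]
    {P : T → σ → k} {α : T → k} {y : Fin c → T → k} (H : Cub s Φ P α y)
    (F : MvPolynomial (σ ⊕ Fin c) k) : ∃ g : k⟦X⟧,
      ∑ i, PowerSeries.C (α i) * aeval (Sum.elim (fun v => PowerSeries.C (P i v) *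
        PowerSeries.X ^ 2) (fun l => PowerSeries.C (y l i) * PowerSeries.X ^ s)) F =
          PowerSeries.X ^ (2 * s) * g ∧ PowerSeries.constantCoeff g = quadSum Φ c F := by
  classical
  induction F using MvPolynomial.induction_on' with
  | add F G hF hG =>
    obtain ⟨f, hf1, hf2⟩ := hF
    obtain ⟨g, hg1, hg2⟩ := hG
    refine ⟨f + g, ?_, by rw [map_add, hf2, hg2, map_add]⟩
    simp only [map_add, mul_add, Finset.sum_add_distrib]
    rw [hf1, hg1]
  | monomial e r =>
    obtain ⟨a, b, rfl⟩ := split_exp e
    obtain ⟨μ, hμ⟩ : ∃ μ, μ = ∑ i, α i * (eval (P i) (monomial a r) *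
      eval (fun l => y l i) (monomial b 1)) := ⟨_, rfl⟩
    have key : ∑ i, PowerSeries.C (α i) * aeval (Sum.elim (fun v => PowerSeries.C (P i v) *
        PowerSeries.X ^ 2) (fun l => PowerSeries.C (y l i) * PowerSeries.X ^ s))
        (monomial (a.mapDomain Sum.inl + b.mapDomain Sum.inr) r) =
        PowerSeries.C μ * PowerSeries.X ^ (2 * a.degree + s * b.degree) := by
      rw [hμ, map_sum, Finset.sum_mul]
      refine Finset.sum_congr rfl fun i _ => ?_
      rw [split_mon, map_mul, aeval_rename, aeval_rename]
      have e1 := aeval_scaled' (P i) 2 a r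
      have e2 := aeval_scaled' (fun l => y l i) s b (1 : k)
      have e3 : ((Sum.elim (fun v => PowerSeries.C (P i v) * PowerSeries.X ^ 2)
        (fun l => PowerSeries.C (y l i) * PowerSeries.X ^ s) : σ ⊕ Fin c → k⟦X⟧) ∘ Sum.inl) =
          fun v => PowerSeries.C (P i v) * PowerSeries.X ^ 2 := rfl
      have e4 : ((Sum.elim (fun v => PowerSeries.C (P i v) * PowerSeries.X ^ 2)
        (fun l => PowerSeries.C (y l i) * PowerSeries.X ^ s) : σ ⊕ Fin c → k⟦X⟧) ∘ Sum.inr) =
          fun l => PowerSeries.C (y l i) * PowerSeries.X ^ s := rfl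
      rw [e3, e4, e1, e2, map_mul, map_mul, pow_add]
      ring
    have hmon : ∀ (a : σ →₀ ℕ) (r : k), (monomial a r : MvPolynomial σ k).IsHomogeneous a.degree :=
      fun a r => isHomogeneous_monomial _ rfl
    rw [quadSum_mon]
    have fact : (2 * a.degree + s * b.degree < 2 * s → μ = 0 ∧
        (if b = 0 then Φ (monomial a r) else 0) +
          (∑ l : Fin c, if a = 0 ∧ b = Finsupp.single l 2 then r else 0) = 0) ∧
        (2 * a.degree + s * b.degree = 2 * s → μ = (if b = 0 then Φ (monomial a r) else 0) +
          ∑ l : Fin c, if a = 0 ∧ b = Finsupp.single l 2 then r else 0) ∧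
        (2 * s < 2 * a.degree + s * b.degree → (if b = 0 then Φ (monomial a r) else 0) +
          (∑ l : Fin c, if a = 0 ∧ b = Finsupp.single l 2 then r else 0) = 0) := by
      have hsum : b.degree ≠ 2 ∨ a ≠ 0 → (∑ l : Fin c, if a = 0 ∧ b = Finsupp.single l 2 then r
          else 0) = 0 := by
        intro h
        refine Finset.sum_eq_zero fun l _ => if_neg ?_
        rintro ⟨h1, h2⟩
        rcases h with h | h
        · rw [h2, Finsupp.degree_single] at h
          exact h rfl
        · exact h h1
      rcases Nat.lt_or_ge b.degree 3 with hb3 | hb3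
      swap
      · have hb : b ≠ 0 := by
          rintro rfl
          simp at hb3
        have h3 : s * 3 ≤ s * b.degree := Nat.mul_le_mul_left _ hb3
        rw [if_neg hb, hsum (Or.inl (by omega)), add_zero]
        exact ⟨fun h => by omega, fun h => by omega, fun _ => rfl⟩
      · interval_cases hbd : b.degree
        · rw [Finsupp.degree_eq_zero_iff] at hbd
          subst hbd
          rw [if_pos rfl, hsum (Or.inl (by simp)), add_zero]
          have hμ' : μ = ∑ i, α i * eval (P i) (monomial a r) := by
            rw [hμ]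
            refine Finset.sum_congr rfl fun i _ => ?_
            have : (monomial 0 (1 : k) : MvPolynomial (Fin c) k) = 1 := rfl
            rw [this, map_one, mul_one]
          refine ⟨fun h => ⟨?_, ?_⟩, fun h => ?_, fun h => ?_⟩
          · rw [hμ']
            exact H.low a.degree (by omega) _ (hmon a r)
          · exact hΦ a.degree (by omega) _ (hmon a r)
          · rw [hμ']
            have : a.degree = s := by omega
            exact H.top _ (this ▸ hmon a r)
          · exact hΦ a.degree (by omega) _ (hmon a r)
        · obtain ⟨l, rfl⟩ := deg_one hbd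
          have hb : Finsupp.single l 1 ≠ 0 := by
            intro h
            have := DFunLike.congr_fun h l
            simp at this
          rw [if_neg hb, hsum (Or.inl (by simp)), add_zero]
          have hμ' : 2 * a.degree ≤ s → μ = 0 := by
            intro h
            rw [hμ, ← H.orth l a.degree h _ (hmon a r)]
            refine Finset.sum_congr rfl fun i _ => ?_
            have : eval (fun l => y l i) (monomial (Finsupp.single l 1) (1 : k)) = y l i := by
              have : (monomial (Finsupp.single l 1) (1 : k) : MvPolynomial (Fin c) k) = X l := rfl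
              rw [this, eval_X]
            rw [this]
            ring
          exact ⟨fun h => ⟨hμ' (by omega), rfl⟩, fun h => hμ' (by omega), fun _ => rfl⟩
        · have hb : b ≠ 0 := by
            rintro rfl
            simp at hbd
          rw [if_neg hb, zero_add]
          refine ⟨fun h => by omega, fun h => ?_, fun h => ?_⟩
          · have ha : a = 0 := by
              rw [← Finsupp.degree_eq_zero_iff]
              omega
            subst ha
            obtain ⟨l, l', rfl⟩ := deg_two hbd
            have hμ' : μ = r * if l = l' then 1 else 0 := by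
              rw [hμ, ← H.norm l l', Finset.mul_sum]
              refine Finset.sum_congr rfl fun i _ => ?_
              have e5 : eval (fun l => y l i) (monomial (Finsupp.single l 1 + Finsupp.single l' 1)
                  (1 : k)) = y l i * y l' i := by
                have : (monomial (Finsupp.single l 1 + Finsupp.single l' 1) (1 : k) :
                    MvPolynomial (Fin c) k) = X l * X l' := by
                  rw [X, X, monomial_mul, mul_one]
                rw [this, map_mul, eval_X, eval_X]
              have e6 : eval (P i) (monomial 0 r) = r := by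
                have : (monomial 0 r : MvPolynomial σ k) = MvPolynomial.C r := rfl
                rw [this, eval_C]
              rw [e5, e6]
              ring
            rw [hμ']
            simp only [pair_single, true_and]
            by_cases hll : l = l'
            · subst hll
              rw [if_pos rfl, mul_one, Finset.sum_eq_single l]
              · rw [if_pos ⟨rfl, rfl⟩]
              · intro l'' _ hne
                rw [if_neg]
                rintro ⟨h1, -⟩
                exact hne h1.symm
              · intro h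
                exact absurd (Finset.mem_univ l) h
            · rw [if_neg hll, mul_zero]
              refine (Finset.sum_eq_zero fun l'' _ => if_neg ?_).symm
              rintro ⟨h1, h2⟩
              exact hll (h1.trans h2.symm)
          · refine hsum (Or.inr ?_)
            rintro rfl
            simp only [map_zero] at h
            omega
    rw [key]
    obtain ⟨f1, f2, f3⟩ := fact
    rcases lt_trichotomy (2 * a.degree + s * b.degree) (2 * s) with h | h | h
    · refine ⟨0, ?_, ?_⟩
      · rw [(f1 h).1, map_zero, zero_mul, mul_zero]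
      · rw [map_zero, (f1 h).2]
    · refine ⟨PowerSeries.C μ, by rw [h, mul_comm], ?_⟩
      rw [PowerSeries.constantCoeff_C, f2 h]
    · refine ⟨PowerSeries.C μ * PowerSeries.X ^ (2 * a.degree + s * b.degree - 2 * s), ?_, ?_⟩
      · rw [← mul_assoc, mul_comm (PowerSeries.X ^ (2 * s)), mul_assoc, ← pow_add,
          Nat.add_sub_cancel' h.le]
      · rw [f3 h, map_mul, map_pow, PowerSeries.constantCoeff_X, zero_pow (by omega), mul_zero]

end Pool.Agent.H37.CU
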