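import Pool.Agent.H37.CU.Iso
import Pool.Agent.H37.CU.Quad
import Pool.Agent.H37.CU.Disj

/-!
# Apolar algebras of elementary symmetric polynomials
-/

set_option autoImplicit false

namespace Pool.Agent.H37.CU

open Pool.Agent.H826R3.SM MvPolynomial
open scoped PowerSeries

variable {k : Type} [Field k] {n : ℕ}

/-- The exponent of a squarefree monomial. -/
noncomputable def ind (U : Finset (Fin n)) : Fin n →₀ ℕ := ∑ i ∈ U, Finsupp.single i 1

theorem ind_apply (U : Finset (Fin n)) (v : Fin n) : ind U v = if v ∈ U then 1 else 0 := by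
  unfold ind
  rw [Finsupp.finsetSum_apply]
  simp only [Finsupp.single_apply]
  rw [Finset.sum_ite_eq']

theorem ind_degree (U : Finset (Fin n)) : (ind U).degree = U.card := by
  unfold ind
  rw [map_sum]
  simp only [Finsupp.degree_single, Finset.sum_const, smul_eq_mul, mul_one]

theorem ind_support (U : Finset (Fin n)) : (ind U).support = U := by
  ext v
  rw [Finsupp.mem_support_iff, ind_apply]
  simp

theorem ind_add_support (U W : Finset (Fin n)) : (ind U + ind W).support = U ∪ W := by
  ext v
  rw [Finsupp.mem_support_iff, Finsupp.add_apply, ind_apply, ind_apply, Finset.mem_union]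
  split_ifs with h1 h2 h2 <;> simp [h1, h2]

theorem support_card_le (a : Fin n →₀ ℕ) : a.support.card ≤ a.degree := by
  rw [Finsupp.degree_apply, Finset.card_eq_sum_ones]
  refine Finset.sum_le_sum fun i hi => ?_
  exact Nat.one_le_iff_ne_zero.2 (Finsupp.mem_support_iff.1 hi)

theorem eq_ind {a : Fin n →₀ ℕ} (h : a.support.card = a.degree) : a = ind a.support := by
  have h1 : ∀ i ∈ a.support, 1 ≤ a i := fun i hi =>
    Nat.one_le_iff_ne_zero.2 (Finsupp.mem_support_iff.1 hi)
  have h2 := (Finset.sum_eq_sum_iff_of_le h1).1 (by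
    rw [← Finsupp.degree_apply, ← h, Finset.card_eq_sum_ones])
  ext v
  rw [ind_apply]
  split_ifs with hv
  · exact (h2 v hv).symm
  · exact Finsupp.notMem_support_iff.1 hv

theorem apolar_esymm (s : ℕ) (a : Fin n →₀ ℕ) (c : k) :
    apolar (esymm (Fin n) k s) (monomial a c) =
      if a.support.card = s ∧ a.degree = s then c else 0 := by
  rw [apolar_monomial, esymm_eq_sum_monomial, coeff_sum]
  have e : ∀ t : Finset (Fin n), coeff a (monomial (∑ i ∈ t, Finsupp.single i 1) (1 : k)) =
      if ind t = a then 1 else 0 := fun t => by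
    rw [coeff_monomial]
    rfl
  simp only [e]
  split_ifs with h
  · have ha : ind a.support = a := (eq_ind (h.1.trans h.2.symm)).symm
    rw [Finset.sum_eq_single a.support]
    · rw [if_pos ha, mul_one]
      have h3 : (a.prod fun _ m => (m.factorial : k)) = 1 := by
        refine Finset.prod_eq_one fun i hi => ?_
        change ((a i).factorial : k) = 1
        have h4 : a i = 1 := by
          rw [← ha, ind_apply, if_pos hi]
        rw [h4]
        simp
      rw [h3, mul_one]
    · intro t _ ht
      rw [if_neg]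
      intro h3
      apply ht
      rw [← h3, ind_support]
    · intro h3
      exact absurd (Finset.mem_powersetCard.2 ⟨Finset.subset_univ _, h.1⟩) h3
  · rw [Finset.sum_eq_zero, mul_zero, mul_zero]
    intro t ht
    rw [if_neg]
    intro h3
    apply h
    rw [← h3, ind_support, ind_degree]
    exact ⟨(Finset.mem_powersetCard.1 ht).2, (Finset.mem_powersetCard.1 ht).2⟩

theorem esymm_dual (s : ℕ) : IsDualForm s (apolar (esymm (Fin n) k s)) := by
  intro m hm F hF
  rw [F.as_sum, map_sum]
  refine Finset.sum_eq_zero fun a ha => ?_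
  rw [apolar_esymm, if_neg]
  rintro ⟨-, h⟩
  apply hm
  rw [← h, Finsupp.degree_eq_weight_one]
  exact (hF (mem_support_iff.mp ha)).symm

/-- The linear map to the squarefree polynomials. -/
noncomputable def sqf (k : Type) [Field k] (p : Finset (Fin n) → Prop) [DecidablePred p] :
    ({U // p U} → k) →ₗ[k] MvPolynomial (Fin n) k :=
  ∑ U : {U // p U}, (monomial (ind U.1)) ∘ₗ LinearMap.proj U

theorem sqf_apply (p : Finset (Fin n) → Prop) [DecidablePred p] (e : {U // p U} → k) :
    sqf k p e = ∑ U : {U // p U}, monomial (ind U.1) (e U) := by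
  unfold sqf
  rw [LinearMap.sum_apply]
  rfl

theorem sqf_inj {s : ℕ} (hs : s ≤ n) (hk : (n.factorial : k) ≠ 0) (p : Finset (Fin n) → Prop)
    [DecidablePred p] (hp : ∀ U, p U → 2 * U.card ≤ s) (e : {U // p U} → k)
    (he : sqf k p e ∈ annOf (apolar (esymm (Fin n) k s))) : e = 0 := by
  classical
  let c : Finset (Fin n) → k := fun U => if h : p U then e ⟨U, h⟩ else 0
  funext ⟨U₀, hU₀⟩
  have h0 := hp U₀ hU₀
  have hfac : ((n - (s - U₀.card)).factorial : k) ≠ 0 := by
    intro h
    apply hk
    obtain ⟨d, hd⟩ := Nat.factorial_dvd_factorial (show n - (s - U₀.card) ≤ n by omega)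
    rw [hd, Nat.cast_mul, h, zero_mul]
  have key := inclusion_inj U₀.card (n - (s - U₀.card)) Finset.univ c (by omega)
    (by rw [Finset.card_univ, Fintype.card_fin]; omega) hfac ?_ U₀ (Finset.subset_univ _) rfl
  · have : c U₀ = e ⟨U₀, hU₀⟩ := dif_pos hU₀
    rw [← this, key]
    rfl
  · intro S _ hS
    have h1 := he (monomial (ind Sᶜ) 1)
    rw [sqf_apply, Finset.sum_mul, map_sum] at h1
    simp only [monomial_mul, mul_one, apolar_esymm, ind_add_support, map_add, ind_degree,
      Finset.card_compl, Fintype.card_fin, hS] at h1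
    have h2 : ∀ U : {U // p U}, (if (U.1 ∪ Sᶜ).card = s ∧ U.1.card + (n - (n - (s - U₀.card))) = s
        then e U else 0) = if U.1 ⊆ S ∧ U.1.card = U₀.card then c U.1 else 0 := by
      intro U
      have h3 : c U.1 = e U := dif_pos U.2
      rw [h3]
      refine if_congr ?_ rfl rfl
      have h4 := Finset.card_union_add_card_inter U.1 Sᶜ
      rw [Finset.card_compl, Fintype.card_fin, hS] at h4
      constructor
      · rintro ⟨h5, h6⟩
        have h7 : (U.1 ∩ Sᶜ).card = 0 := by omega
        refine ⟨?_, by omega⟩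
        intro x hx
        by_contra hxS
        have h8 : x ∈ U.1 ∩ Sᶜ := Finset.mem_inter.2 ⟨hx, Finset.mem_compl.2 hxS⟩
        rw [Finset.card_eq_zero.1 h7] at h8
        simp at h8
      · rintro ⟨h5, h6⟩
        have h7 : (U.1 ∩ Sᶜ).card = 0 := by
          rw [Finset.card_eq_zero, Finset.eq_empty_iff_forall_notMem]
          intro x hx
          rw [Finset.mem_inter, Finset.mem_compl] at hx
          exact hx.2 (h5 hx.1)
        constructor <;> omega
    rw [Finset.sum_congr rfl fun U _ => h2 U] at h1
    rw [← Finset.sum_subtype (Finset.univ.filter p) (by simp)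
      (fun U => if U ⊆ S ∧ U.card = U₀.card then c U else 0), Finset.sum_filter_of_ne,
      ← Finset.sum_filter] at h1
    · rw [← h1]
      refine Finset.sum_congr ?_ fun _ _ => rfl
      ext U
      rw [Finset.mem_powersetCard, Finset.mem_filter]
      simp
    · intro U _ hU
      by_contra hpU
      apply hU
      have h5 : c U = 0 := dif_neg hpU
      rw [h5, ite_self]

/-- The sets of the levels used. -/
abbrev Lev (n s : ℕ) : Type := {U : Finset (Fin n) // 2 * U.card ≤ s ∨ 2 * (n - U.card) < s}

/-- The levels used. -/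
def levI (n s : ℕ) : Finset ℕ := (Finset.range (s + 1)).image fun i => if 2 * i ≤ s then i else
  n - (s - i)

theorem card_levI {n s : ℕ} (hs : s ≤ n) : (levI n s).card = s + 1 := by
  unfold levI
  rw [Finset.card_image_of_injOn, Finset.card_range]
  intro i hi j hj h
  rw [Finset.mem_coe, Finset.mem_range] at hi hj
  simp only at h
  split_ifs at h <;> omega

theorem mem_levI {n s i : ℕ} (hs : s ≤ n) (hi : i ≤ n) (h : 2 * i ≤ s ∨ 2 * (n - i) < s) :
    i ∈ levI n s := by
  unfold levI
  rw [Finset.mem_image]
  rcases h with h | h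
  · exact ⟨i, Finset.mem_range.2 (by omega), if_pos h⟩
  · refine ⟨s - (n - i), Finset.mem_range.2 (by omega), ?_⟩
    rw [if_neg (by omega)]
    omega

theorem levI_spec {n s i : ℕ} (hs : s ≤ n) (hi : i ∈ levI n s) :
    i ≤ n ∧ (2 * i ≤ s ∨ 2 * (n - i) < s) := by
  unfold levI at hi
  rw [Finset.mem_image] at hi
  obtain ⟨j, hj, rfl⟩ := hi
  rw [Finset.mem_range] at hj
  split_ifs with h
  · exact ⟨by omega, Or.inl h⟩
  · exact ⟨by omega, Or.inr (by omega)⟩

theorem card_Lev {n s : ℕ} (hs : s ≤ n) :
    Fintype.card (Lev n s) = ∑ j ∈ Finset.range (s + 1), n.choose (min j (s - j)) := by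
  have h1 : Fintype.card (Lev n s) = ∑ i ∈ levI n s, n.choose i := by
    rw [Fintype.card_subtype, Finset.card_eq_sum_ones,
      ← Finset.sum_fiberwise_of_maps_to (t := levI n s) (g := Finset.card)]
    · refine Finset.sum_congr rfl fun i hi => ?_
      rw [← Finset.card_eq_sum_ones]
      have : Finset.filter (fun U => U.card = i) (Finset.filter
          (fun U : Finset (Fin n) => 2 * U.card ≤ s ∨ 2 * (n - U.card) < s) Finset.univ) =
          Finset.univ.powersetCard i := by
        ext U
        rw [Finset.mem_filter, Finset.mem_filter, Finset.mem_powersetCard]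
        constructor
        · rintro ⟨-, h⟩
          exact ⟨Finset.subset_univ _, h⟩
        · rintro ⟨-, rfl⟩
          exact ⟨⟨Finset.mem_univ _, (levI_spec hs hi).2⟩, rfl⟩
      rw [this, Finset.card_powersetCard, Finset.card_univ, Fintype.card_fin]
    · intro U hU
      refine mem_levI hs ?_ (Finset.mem_filter.1 hU).2
      have := Finset.card_le_univ U
      rwa [Fintype.card_fin] at this
  rw [h1]
  unfold levI
  rw [Finset.sum_image]
  · refine Finset.sum_congr rfl fun i hi => ?_
    rw [Finset.mem_range] at hi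
    split_ifs with h
    · rw [min_eq_left (by omega)]
    · rw [min_eq_right (by omega), Nat.choose_symm (by omega)]
  · intro i hi j hj h
    rw [Finset.mem_coe, Finset.mem_range] at hi hj
    simp only at h
    split_ifs at h <;> omega

theorem card_Lev_le (n s : ℕ) : Fintype.card (Lev n s) ≤
    Fintype.card {U : Finset (Fin n) // 2 * U.card ≤ s} +
      Fintype.card {U : Finset (Fin n) // 2 * U.card < s} := by
  refine (Fintype.card_subtype_or _ _).trans (Nat.add_le_add_left ?_ _)
  refine le_of_eq (Fintype.card_congr ?_)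
  refine ⟨fun U => ⟨U.1ᶜ, ?_⟩, fun U => ⟨U.1ᶜ, ?_⟩, fun U => ?_, fun U => ?_⟩
  · rw [Finset.card_compl, Fintype.card_fin]
    exact U.2
  · rw [Finset.card_compl, Fintype.card_fin]
    have h1 := U.2
    have h2 := Finset.card_le_univ U.1
    rw [Fintype.card_fin] at h2
    have h3 : n - (n - U.1.card) = U.1.card := by omega
    rw [h3]
    exact h1
  · exact Subtype.ext (compl_compl _)
  · exact Subtype.ext (compl_compl _)

/-- The weights. -/
theorem level_sum {n s : ℕ} (hs : s ≤ n) (hk : (n.factorial : k) ≠ 0) : ∃ W : ℕ → k,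
    ∀ R : Finset (Fin n), R.card ≤ s →
      (∑ U : Lev n s, if R ⊆ U.1 then W U.1.card else 0) = if R.card = s then 1 else 0 := by
  obtain ⟨w, hw⟩ := exists_weights n s (levI n s) (fun i hi => (levI_spec hs hi).1) (card_levI hs) hk
  have hch : ∀ i ≤ n, (n.choose i : k) ≠ 0 := by
    intro i hi h0
    apply hk
    rw [← Nat.choose_mul_factorial_mul_factorial hi, Nat.cast_mul, Nat.cast_mul, h0, zero_mul,
      zero_mul]
  refine ⟨fun i => (n.choose s : k) * w i / (n.choose i : k), fun R hR => ?_⟩
  have hRn : R.card ≤ n := hR.trans hs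
  rw [← Finset.sum_subtype (Finset.univ.filter fun U : Finset (Fin n) => 2 * U.card ≤ s ∨
      2 * (n - U.card) < s) (by simp)
      (fun U => if R ⊆ U then (n.choose s : k) * w U.card / (n.choose U.card : k) else 0),
    ← Finset.sum_fiberwise_of_maps_to (t := levI n s) (g := Finset.card)]
  · have e : ∀ i ∈ levI n s, ∑ U ∈ Finset.filter (fun U => U.card = i) (Finset.filter
          (fun U : Finset (Fin n) => 2 * U.card ≤ s ∨ 2 * (n - U.card) < s) Finset.univ),
          (if R ⊆ U then (n.choose s : k) * w U.card / (n.choose U.card : k) else 0) =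
          (n.choose s : k) / (n.choose R.card : k) * (w i * (i.choose R.card : k)) := by
      intro i hi
      have h1 : Finset.filter (fun U => U.card = i) (Finset.filter
          (fun U : Finset (Fin n) => 2 * U.card ≤ s ∨ 2 * (n - U.card) < s) Finset.univ) =
          Finset.univ.powersetCard i := by
        ext U
        rw [Finset.mem_filter, Finset.mem_filter, Finset.mem_powersetCard]
        constructor
        · rintro ⟨-, h⟩
          exact ⟨Finset.subset_univ _, h⟩
        · rintro ⟨-, rfl⟩
          exact ⟨⟨Finset.mem_univ _, (levI_spec hs hi).2⟩, rfl⟩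
      rw [h1, ← Finset.sum_filter, Finset.sum_congr rfl fun U hU => by
        rw [(Finset.mem_powersetCard.1 (Finset.mem_filter.1 hU).1).2], Finset.sum_const,
        nsmul_eq_mul]
      have h2 := count_supersets R i
      rw [Fintype.card_fin] at h2
      have h3 : ((((Finset.univ.powersetCard i).filter (fun U : Finset (Fin n) => R ⊆ U)).card : ℕ)
          : k) * (n.choose R.card : k) = (n.choose i : k) * (i.choose R.card : k) := by
        exact_mod_cast congrArg (Nat.cast : ℕ → k) h2
      have h4 := hch i (levI_spec hs hi).1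
      have h5 := hch R.card hRn
      field_simp
      linear_combination ((n.choose s : k) * w i) * h3
    rw [Finset.sum_congr rfl e, ← Finset.mul_sum, hw R.card hR]
    split_ifs with h
    · rw [h, mul_one, div_self (hch s hs)]
    · rw [mul_zero]
  · intro U hU
    refine mem_levI hs ?_ (Finset.mem_filter.1 hU).2
    have := Finset.card_le_univ U
    rwa [Fintype.card_fin] at this

theorem esymm_moments {n s : ℕ} (hs : s ≤ n) (hk : (n.factorial : k) ≠ 0) :
    ∃ α : Lev n s → k, ∀ F : MvPolynomial (Fin n) k, ∃ g : k⟦X⟧,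
      ∑ U, PowerSeries.C (α U) * aeval (fun v => (PowerSeries.C (if v ∈ U.1 then (1 : k) else 0) *
        PowerSeries.X ^ 1 : k⟦X⟧)) F = PowerSeries.X ^ s * g ∧
        PowerSeries.constantCoeff g = apolar (esymm (Fin n) k s) F := by
  classical
  obtain ⟨W, hW⟩ := level_sum hs hk
  refine ⟨fun U => W U.1.card, fun F => ?_⟩
  induction F using MvPolynomial.induction_on' with
  | add F G hF hG =>
    obtain ⟨f, hf1, hf2⟩ := hF
    obtain ⟨g, hg1, hg2⟩ := hG
    refine ⟨f + g, ?_, by rw [map_add, hf2, hg2, map_add]⟩
    simp only [map_add, mul_add, Finset.sum_add_distrib]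
    rw [hf1, hg1]
  | monomial a c =>
    have h1 : ∀ U : Lev n s, eval (fun v => if v ∈ U.1 then (1 : k) else 0) (monomial a c) =
        if a.support ⊆ U.1 then c else 0 := by
      intro U
      rw [eval_monomial]
      split_ifs with h
      · rw [Finsupp.prod, Finset.prod_eq_one, mul_one]
        intro v hv
        rw [if_pos (h hv), one_pow]
      · obtain ⟨v, hv, hvU⟩ := Finset.not_subset.1 h
        rw [Finsupp.prod, Finset.prod_eq_zero hv, mul_zero]
        rw [if_neg hvU, zero_pow (Finsupp.mem_support_iff.1 hv)]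
    have key : ∑ U : Lev n s, PowerSeries.C (W U.1.card) * aeval (fun v => (PowerSeries.C
        (if v ∈ U.1 then (1 : k) else 0) * PowerSeries.X ^ 1 : k⟦X⟧)) (monomial a c) =
        PowerSeries.C (c * ∑ U : Lev n s, if a.support ⊆ U.1 then W U.1.card else 0) *
          PowerSeries.X ^ a.degree := by
      rw [Finset.mul_sum, map_sum, Finset.sum_mul]
      refine Finset.sum_congr rfl fun U _ => ?_
      rw [aeval_scaled' (fun v => if v ∈ U.1 then (1 : k) else 0) 1 a c, h1 U, one_mul, ← mul_assoc,
        ← map_mul]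
      congr 2
      split_ifs
      · rw [mul_comm]
      · rw [mul_zero, mul_zero]
    rw [key, apolar_esymm]
    have hle := support_card_le a
    rcases lt_trichotomy a.degree s with h | h | h
    · refine ⟨0, ?_, ?_⟩
      · rw [hW _ (by omega), if_neg (by omega), mul_zero, map_zero, zero_mul, mul_zero]
      · rw [if_neg (by omega), map_zero]
    · refine ⟨PowerSeries.C (c * ∑ U : Lev n s, if a.support ⊆ U.1 then W U.1.card else 0), ?_, ?_⟩
      · rw [h, mul_comm]
      · rw [PowerSeries.constantCoeff_C, hW _ (by omega)]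
        by_cases h' : a.support.card = s
        · rw [if_pos h', if_pos ⟨h', h⟩, mul_one]
        · rw [if_neg h', if_neg (fun h'' => h' h''.1), mul_zero]
    · refine ⟨PowerSeries.C (c * ∑ U : Lev n s, if a.support ⊆ U.1 then W U.1.card else 0) *
        PowerSeries.X ^ (a.degree - s), ?_, ?_⟩
      · rw [← mul_assoc, mul_comm (PowerSeries.X ^ s), mul_assoc, ← pow_add,
          Nat.add_sub_cancel' h.le]
      · rw [map_mul, map_pow, PowerSeries.constantCoeff_X, zero_pow (by omega), mul_zero,
          if_neg (by omega)]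

theorem esymm_apolar_ne {n s : ℕ} (hs : s ≤ n) : apolar (esymm (Fin n) k s) ≠ 0 := by
  obtain ⟨U, -, hU⟩ := Finset.exists_subset_card_eq (s := (Finset.univ : Finset (Fin n)))
    (show s ≤ _ by rwa [Finset.card_univ, Fintype.card_fin])
  intro h
  have h1 := apolar_esymm (k := k) s (ind U) 1
  rw [h, ind_support, ind_degree, if_pos ⟨hU, hU⟩] at h1
  exact zero_ne_one h1

theorem esymm_main (k : Type) [Field k] [Infinite k] (n s : ℕ) (hs : s ≤ n)
    (hk : (n.factorial : k) ≠ 0) :
    Module.finrank k (ApolarAlg (apolar (esymm (Fin n) k s))) =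
        ∑ j ∈ Finset.range (s + 1), n.choose (min j (s - j)) ∧
      Smoothable k (ApolarAlg (apolar (esymm (Fin n) k s))) ∧
      (∀ m : ℕ, defect k (Pow k (ApolarAlg (apolar (esymm (Fin n) k s))) m) = 0) ∧
      QOne k (ApolarAlg (apolar (esymm (Fin n) k s))) := by
  have hfin : Module.Finite k (ApolarAlg (apolar (esymm (Fin n) k s))) :=
    finite_apolar (esymm_dual s)
  have hnt : Nontrivial (ApolarAlg (apolar (esymm (Fin n) k s))) :=
    nontrivial_apolar (esymm_apolar_ne hs)
  obtain ⟨α, hα⟩ := esymm_moments (k := k) hs hk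
  have hsec : HasSec k (ApolarAlg (apolar (esymm (Fin n) k s))) (Lev n s) :=
    hasSec_of_moments _ (fun U v => PowerSeries.C (if v ∈ U.1 then (1 : k) else 0) *
      PowerSeries.X ^ 1) (fun U => PowerSeries.C (α U)) s hα
  have hdim : Fintype.card (Lev n s) ≤
      Module.finrank k (ApolarAlg (apolar (esymm (Fin n) k s))) := by
    have h1 := isotropic_bound (apolar (esymm (Fin n) k s))
      (sqf k fun U : Finset (Fin n) => 2 * U.card ≤ s)
      (sqf k fun U : Finset (Fin n) => 2 * U.card < s)
      (sqf_inj hs hk _ fun U h => h) (sqf_inj hs hk _ fun U h => le_of_lt h) ?_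
    · rw [Module.finrank_pi, Module.finrank_pi] at h1
      exact (card_Lev_le n s).trans h1
    · intro e₁ e₂
      rw [sqf_apply, sqf_apply, Finset.sum_mul_sum, map_sum]
      refine Finset.sum_eq_zero fun U _ => ?_
      rw [map_sum]
      refine Finset.sum_eq_zero fun W _ => ?_
      rw [monomial_mul, apolar_esymm, if_neg]
      rintro ⟨-, h⟩
      rw [map_add, ind_degree, ind_degree] at h
      have h1 := U.2
      have h2 := W.2
      omega
  obtain ⟨h1, h2, h3, h4⟩ := of_hasSec hsec hdim
  exact ⟨h4.trans (card_Lev hs), h1, h2, h3⟩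

end Pool.Agent.H37.CU
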