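import Pool.Agent.H37.CU.Basic

/-!
# Isotropic subspaces of apolar algebras
-/

set_option autoImplicit false

namespace Pool.Agent.H37.CU

open Pool.Agent.H826R3.SM MvPolynomial

variable {k : Type} [Field k] {τ : Type}

/-- Two subspaces of the polynomial ring which embed into the apolar algebra and are orthogonal to
each other have total dimension at most the dimension of the apolar algebra. -/
theorem isotropic_bound (Φ : MvPolynomial τ k →ₗ[k] k) [Module.Finite k (ApolarAlg Φ)]
    {E₁ E₂ : Type} [AddCommGroup E₁] [Module k E₁] [AddCommGroup E₂] [Module k E₂]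
    (i₁ : E₁ →ₗ[k] MvPolynomial τ k) (i₂ : E₂ →ₗ[k] MvPolynomial τ k)
    (h₁ : ∀ e, i₁ e ∈ annOf Φ → e = 0) (h₂ : ∀ e, i₂ e ∈ annOf Φ → e = 0)
    (h : ∀ e₁ e₂, Φ (i₁ e₁ * i₂ e₂) = 0) :
    Module.finrank k E₁ + Module.finrank k E₂ ≤ Module.finrank k (ApolarAlg Φ) := by
  let q : MvPolynomial τ k →ₐ[k] ApolarAlg Φ := Ideal.Quotient.mkₐ k (annOf Φ)
  have hq : Function.Surjective q := Ideal.Quotient.mk_surjective
  -- the pairing
  have hker : ∀ F ∈ annOf Φ, Φ F = 0 := fun F hF => by
    have := hF 1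
    rwa [mul_one] at this
  let Φ' : ApolarAlg Φ →ₗ[k] k := (Submodule.liftQ ((annOf Φ).restrictScalars k) Φ hker)
  have hΦ' : ∀ F, Φ' (q F) = Φ F := fun F => rfl
  let B : ApolarAlg Φ →ₗ[k] Module.Dual k (ApolarAlg Φ) :=
    LinearMap.mk₂ k (fun u v => Φ' (u * v)) (fun a b c => by rw [add_mul, map_add])
      (fun a b c => by rw [smul_mul_assoc, map_smul]) (fun a b c => by rw [mul_add, map_add])
      (fun a b c => by rw [mul_smul_comm, map_smul])
  have hBinj : Function.Injective B := by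
    rw [injective_iff_map_eq_zero]
    intro u hu
    obtain ⟨F, rfl⟩ := hq u
    refine Ideal.Quotient.eq_zero_iff_mem.2 fun G => ?_
    have h1 : B (q F) (q G) = 0 := by rw [hu]; rfl
    change Φ' (q F * q G) = 0 at h1
    rwa [← map_mul, hΦ'] at h1
  have hBsurj : Function.Surjective B :=
    (LinearMap.injective_iff_surjective_of_finrank_eq_finrank
      (Subspace.dual_finrank_eq (K := k) (V := ApolarAlg Φ)).symm).1 hBinj
  let j₁ : E₁ →ₗ[k] ApolarAlg Φ := q.toLinearMap ∘ₗ i₁
  let j₂ : E₂ →ₗ[k] ApolarAlg Φ := q.toLinearMap ∘ₗ i₂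
  have hj₁ : Function.Injective j₁ := by
    rw [injective_iff_map_eq_zero]
    intro e he
    exact h₁ e (Ideal.Quotient.eq_zero_iff_mem.1 he)
  have hj₂ : Function.Injective j₂ := by
    rw [injective_iff_map_eq_zero]
    intro e he
    exact h₂ e (Ideal.Quotient.eq_zero_iff_mem.1 he)
  have f₁ : Module.Finite k E₁ := Module.Finite.of_injective j₁ hj₁
  have f₂ : Module.Finite k E₂ := Module.Finite.of_injective j₂ hj₂
  let ψ : ApolarAlg Φ →ₗ[k] Module.Dual k E₂ := j₂.dualMap ∘ₗ B
  have hψ : Function.Surjective ψ := by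
    have := LinearMap.dualMap_surjective_of_injective hj₂
    exact this.comp hBsurj
  have h3 := LinearMap.finrank_range_add_finrank_ker ψ
  rw [LinearMap.range_eq_top.2 hψ, finrank_top, Subspace.dual_finrank_eq] at h3
  have h4 : LinearMap.range j₁ ≤ LinearMap.ker ψ := by
    rintro _ ⟨e, rfl⟩
    rw [LinearMap.mem_ker]
    ext e'
    change Φ' (q (i₁ e) * q (i₂ e')) = 0
    rw [← map_mul, hΦ', h]
  have h5 := Submodule.finrank_mono h4
  rw [LinearMap.finrank_range_of_inj hj₁] at h5
  omega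

end Pool.Agent.H37.CU
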