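import Pool.Agent.H37.CU.Stable
import Pool.Graph.R_seed8.R566.CV.Sub
import Pool.Graph.R_seed8.N86.SQ.Rate

/-!
# Lower bounds, and the exact dimension
-/

set_option autoImplicit false

namespace Pool.Agent.H37.CU

open Pool.Agent.H826R3.SM MvPolynomial

variable {k σ : Type} [Field k] {s : ℕ} {Φ : MvPolynomial σ k →ₗ[k] k} {c : ℕ}

/-- A map whose kernel is contained in the kernel of a surjection. -/
theorem exists_sub_one {A B P : Type} [CommRing A] [Algebra k A] [CommRing B] [Algebra k B]
    [CommRing P] [Algebra k P] (g : P →ₐ[k] B) (q : P →ₐ[k] A) (hq : Function.Surjective q)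
    (hker : ∀ x, g x = 0 → q x = 0) :
    ∃ (S : Subalgebra k B) (p : S →ₐ[k] A), Function.Surjective p := by
  refine ⟨g.range, ?_⟩
  have hs : Function.Surjective g.rangeRestrict := AlgHom.rangeRestrict_surjective g
  let e := Ideal.quotientKerAlgEquivOfSurjective hs
  let l : (P ⧸ RingHom.ker g.rangeRestrict) →ₐ[k] A :=
    Ideal.Quotient.liftₐ (RingHom.ker g.rangeRestrict) q (by
      intro x hx
      apply hker
      have h1 : g.rangeRestrict x = 0 := hx
      exact congrArg Subtype.val h1)
  refine ⟨l.comp e.symm.toAlgHom, ?_⟩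
  have h2 : Function.Surjective l := by
    intro y
    obtain ⟨x, rfl⟩ := hq y
    exact ⟨Ideal.Quotient.mk _ x, rfl⟩
  exact h2.comp e.symm.surjective

theorem lower_quadSum [IsAlgClosed k] [Module.Finite k (ApolarAlg (quadSum Φ c))]
    [Module.Finite k (ApolarAlg Φ)] (n : ℕ) :
    Module.finrank k (ApolarAlg Φ) ^ n + defect k (Pow k (ApolarAlg Φ) n) ≤
      Module.finrank k (ApolarAlg (quadSum Φ c)) ^ n +
        defect k (Pow k (ApolarAlg (quadSum Φ c)) n) := by
  obtain ⟨S, p, hp⟩ := exists_sub_one
    ((Ideal.Quotient.mkₐ k (annOf (quadSum Φ c))).comp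
      (rename Sum.inl : MvPolynomial σ k →ₐ[k] MvPolynomial (σ ⊕ Fin c) k))
    (Ideal.Quotient.mkₐ k (annOf Φ)) Ideal.Quotient.mk_surjective (by
      intro F hF
      have h1 : rename Sum.inl F ∈ annOf (quadSum Φ c) := Ideal.Quotient.eq_zero_iff_mem.1 hF
      refine Ideal.Quotient.eq_zero_iff_mem.2 fun G => ?_
      have h2 := h1 (rename Sum.inl G)
      rwa [← map_mul, quadSum_inl] at h2)
  exact Pool.Agent.R566.CV.total_sub S p hp n

/-- The apolar algebra of `Φ` is a subquotient of that of the sum. -/
theorem subquot_quadSum :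
    Pool.Agent.N86.SQ.IsSubquotient k (ApolarAlg Φ) (ApolarAlg (quadSum Φ c)) :=
  exists_sub_one
    ((Ideal.Quotient.mkₐ k (annOf (quadSum Φ c))).comp
      (rename Sum.inl : MvPolynomial σ k →ₐ[k] MvPolynomial (σ ⊕ Fin c) k))
    (Ideal.Quotient.mkₐ k (annOf Φ)) Ideal.Quotient.mk_surjective (by
      intro F hF
      have h1 : rename Sum.inl F ∈ annOf (quadSum Φ c) := Ideal.Quotient.eq_zero_iff_mem.1 hF
      refine Ideal.Quotient.eq_zero_iff_mem.2 fun G => ?_
      have h2 := h1 (rename Sum.inl G)
      rwa [← map_mul, quadSum_inl] at h2)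

theorem coeff_zero_of_annOf (hΦ : IsDualForm s Φ) (h0 : Φ ≠ 0) {F : MvPolynomial σ k}
    (hF : F ∈ annOf Φ) : coeff 0 F = 0 := by
  have h1 := component_mem_annOf hΦ hF 0
  rw [homogeneousComponent_zero] at h1
  by_contra hne
  apply h0
  refine LinearMap.ext fun G => ?_
  have h2 := h1 G
  rw [← smul_eq_C_mul, map_smul, smul_eq_mul] at h2
  exact (mul_eq_zero.1 h2).resolve_left hne

theorem exists_top (hΦ : IsDualForm s Φ) (h0 : Φ ≠ 0) :
    ∃ F : MvPolynomial σ k, F.IsHomogeneous s ∧ Φ F = 1 := by
  obtain ⟨G, hG⟩ : ∃ G, Φ G ≠ 0 := by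
    by_contra hcon
    push Not at hcon
    exact h0 (LinearMap.ext hcon)
  have h1 : Φ (homogeneousComponent s G) ≠ 0 := by
    intro h
    apply hG
    rw [← sum_homogeneousComponent G, map_sum]
    refine Finset.sum_eq_zero fun j _ => ?_
    rcases eq_or_ne j s with rfl | hj
    · exact h
    · exact hΦ j hj _ (homogeneousComponent_isHomogeneous j G)
  refine ⟨(Φ (homogeneousComponent s G))⁻¹ • homogeneousComponent s G, ?_, ?_⟩
  · rw [smul_eq_C_mul]
    have := (isHomogeneous_C σ ((Φ (homogeneousComponent s G))⁻¹)).mul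
      (homogeneousComponent_isHomogeneous s G)
    rwa [zero_add] at this
  · rw [map_smul, smul_eq_mul, inv_mul_cancel₀ h1]

open Classical in
/-- Multiplication of a polynomial in the old variables with a monomial. -/
theorem quadSum_inl_mul (F : MvPolynomial σ k) (a : σ →₀ ℕ) (b : Fin c →₀ ℕ) :
    quadSum Φ c (rename Sum.inl F * monomial (a.mapDomain Sum.inl + b.mapDomain Sum.inr) 1) =
      (if b = 0 then Φ (F * monomial a 1) else 0) +
        ∑ l : Fin c, if a = 0 ∧ b = Finsupp.single l 2 then coeff 0 F else 0 := by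
  induction F using MvPolynomial.induction_on' with
  | add F G hF hG =>
    rw [map_add, add_mul, map_add, hF, hG, add_mul, map_add, coeff_add]
    have h1 : ∀ (p : Prop) [Decidable p] (x y : k), (if p then x + y else 0) =
        (if p then x else 0) + (if p then y else 0) := by
      intro p _ x y
      split_ifs <;> simp
    simp only [h1, Finset.sum_add_distrib]
    ring
  | monomial e r =>
    have h1 : rename Sum.inl (monomial e r) * monomial (a.mapDomain Sum.inl +
        b.mapDomain Sum.inr : σ ⊕ Fin c →₀ ℕ) (1 : k) =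
        monomial ((e + a).mapDomain Sum.inl + b.mapDomain Sum.inr) r := by
      rw [rename_monomial, monomial_mul, mul_one, Finsupp.mapDomain_add, add_assoc]
    rw [h1, quadSum_mon, monomial_mul, mul_one]
    congr 1
    refine Finset.sum_congr rfl fun l _ => ?_
    rw [coeff_monomial]
    by_cases he : e = 0
    · subst he
      rw [zero_add, if_pos rfl]
    · rw [if_neg he, ite_self, if_neg]
      rintro ⟨h2, -⟩
      apply he
      have := congrArg Finsupp.degree h2
      rw [map_add, map_zero] at this
      have h3 : e.degree = 0 := by omega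
      rwa [Finsupp.degree_eq_zero_iff] at h3

theorem mem_annOf_of_monomials {τ : Type} {Ψ : MvPolynomial τ k →ₗ[k] k} {F : MvPolynomial τ k}
    (h : ∀ e, Ψ (F * monomial e 1) = 0) : F ∈ annOf Ψ := by
  intro G
  induction G using MvPolynomial.induction_on' with
  | add x y hx hy => rw [mul_add, map_add, hx, hy, add_zero]
  | monomial e r =>
    have : (monomial e r : MvPolynomial τ k) = r • monomial e 1 := by
      rw [smul_monomial, smul_eq_mul, mul_one]
    rw [this, mul_smul_comm, map_smul, h, smul_zero]

theorem inl_annOf (hΦ : IsDualForm s Φ) (h0 : Φ ≠ 0) {F : MvPolynomial σ k}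
    (hF : F ∈ annOf Φ) : rename Sum.inl F ∈ annOf (quadSum Φ c) := by
  classical
  refine mem_annOf_of_monomials fun e => ?_
  obtain ⟨a, b, rfl⟩ := split_exp e
  rw [quadSum_inl_mul, coeff_zero_of_annOf hΦ h0 hF, hF (monomial a 1)]
  simp only [ite_self, Finset.sum_const_zero, add_zero]

theorem mixed_annOf {a : σ →₀ ℕ} {b : Fin c →₀ ℕ}
    (h : (a ≠ 0 ∧ b ≠ 0) ∨ (b ≠ 0 ∧ ∀ b' l, b + b' ≠ Finsupp.single l 2)) (r : k) :
    (monomial (a.mapDomain Sum.inl + b.mapDomain Sum.inr) r : MvPolynomial (σ ⊕ Fin c) k) ∈
      annOf (quadSum Φ c) := by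
  classical
  refine mem_annOf_of_monomials fun e => ?_
  obtain ⟨a', b', rfl⟩ := split_exp e
  have h1 : (monomial (a.mapDomain Sum.inl + b.mapDomain Sum.inr : σ ⊕ Fin c →₀ ℕ) r) *
      monomial (a'.mapDomain Sum.inl + b'.mapDomain Sum.inr) 1 =
      monomial ((a + a').mapDomain Sum.inl + (b + b').mapDomain Sum.inr) r := by
    rw [monomial_mul, mul_one, Finsupp.mapDomain_add, Finsupp.mapDomain_add, add_add_add_comm]
  have hadd : ∀ {τ : Type} (x y : τ →₀ ℕ), x ≠ 0 → x + y ≠ 0 := by
    intro τ x y hx h
    apply hx
    have := congrArg Finsupp.degree h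
    rw [map_add, map_zero] at this
    have h3 : x.degree = 0 := by omega
    rwa [Finsupp.degree_eq_zero_iff] at h3
  rw [h1, quadSum_mon]
  have hb : b ≠ 0 := by
    rcases h with h | h
    · exact h.2
    · exact h.1
  rw [if_neg (hadd _ _ hb), zero_add]
  refine Finset.sum_eq_zero fun l _ => if_neg ?_
  rintro ⟨h2, h3⟩
  rcases h with h | h
  · exact hadd _ _ h.1 h2
  · exact h.2 b' l h3

theorem finrank_quadSum [Finite σ] (hs : 1 ≤ s) (hΦ : IsDualForm s Φ) (h0 : Φ ≠ 0)
    [Module.Finite k (ApolarAlg Φ)] :
    Module.finrank k (ApolarAlg (quadSum Φ c)) = Module.finrank k (ApolarAlg Φ) + c := by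
  classical
  have hfin : Module.Finite k (ApolarAlg (quadSum Φ c)) := finite_quadSum hΦ
  refine le_antisymm ?_ le_finrank_quadSum
  -- the surjection
  let Q : MvPolynomial (σ ⊕ Fin c) k →ₗ[k] ApolarAlg (quadSum Φ c) :=
    (Ideal.Quotient.mkₐ k (annOf (quadSum Φ c))).toLinearMap
  have hQ : ∀ F G, F - G ∈ annOf (quadSum Φ c) → Q F = Q G := fun F G h =>
    Ideal.Quotient.eq.2 h
  let R : ApolarAlg Φ →ₗ[k] ApolarAlg (quadSum Φ c) :=
    Submodule.liftQ ((annOf Φ).restrictScalars k)
      (Q ∘ₗ (rename Sum.inl : MvPolynomial σ k →ₐ[k] MvPolynomial (σ ⊕ Fin c) k).toLinearMap)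
      (fun F hF => Ideal.Quotient.eq_zero_iff_mem.2 (inl_annOf hΦ h0 hF))
  have hR : ∀ F, R (Ideal.Quotient.mk (annOf Φ) F) = Q (rename Sum.inl F) := fun F => rfl
  let W : Submodule k (ApolarAlg (quadSum Φ c)) :=
    LinearMap.range R ⊔ Submodule.span k (Set.range fun l : Fin c => Q (X (Sum.inr l)))
  have htop : W = ⊤ := by
    rw [eq_top_iff]
    intro x _
    obtain ⟨F, rfl⟩ := Ideal.Quotient.mk_surjective x
    change Q F ∈ W
    rw [F.as_sum, map_sum]
    refine Submodule.sum_mem _ fun e _ => ?_
    have hr : (monomial e (coeff e F) : MvPolynomial (σ ⊕ Fin c) k) =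
        (coeff e F) • monomial e 1 := by
      rw [smul_monomial, smul_eq_mul, mul_one]
    rw [hr, map_smul]
    refine Submodule.smul_mem _ _ ?_
    obtain ⟨a, b, rfl⟩ := split_exp e
    have hz : ∀ G, G ∈ annOf (quadSum Φ c) → Q G ∈ W := by
      intro G hG
      have : Q G = 0 := Ideal.Quotient.eq_zero_iff_mem.2 hG
      rw [this]
      exact Submodule.zero_mem _
    rcases eq_or_ne b 0 with rfl | hb
    · refine Submodule.mem_sup_left ⟨Ideal.Quotient.mk (annOf Φ) (monomial a 1), ?_⟩
      rw [hR, rename_monomial, Finsupp.mapDomain_zero, add_zero]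
    rcases eq_or_ne a 0 with rfl | ha
    swap
    · exact hz _ (mixed_annOf (Or.inl ⟨ha, hb⟩) 1)
    rcases Nat.lt_or_ge b.degree 3 with hb3 | hb3
    swap
    · refine hz _ (mixed_annOf (Or.inr ⟨hb, fun b' l h => ?_⟩) 1)
      have := congrArg Finsupp.degree h
      rw [map_add, Finsupp.degree_single] at this
      omega
    have hb0 : b.degree ≠ 0 := by
      rw [Ne, Finsupp.degree_eq_zero_iff]
      exact hb
    rcases Nat.lt_or_ge b.degree 2 with hb2 | hb2
    · obtain ⟨l, rfl⟩ := deg_one (b := b) (by omega)
      refine Submodule.mem_sup_right (Submodule.subset_span ⟨l, ?_⟩)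
      rw [Finsupp.mapDomain_zero, zero_add, Finsupp.mapDomain_single]
      rfl
    · obtain ⟨l, l', rfl⟩ := deg_two (b := b) (by omega)
      rcases eq_or_ne l l' with rfl | hne
      · -- the square
        obtain ⟨f, hf, hf1⟩ := exists_top hΦ h0
        have h5 : Q (monomial (Finsupp.mapDomain Sum.inl 0 + Finsupp.mapDomain Sum.inr
            (Finsupp.single l 1 + Finsupp.single l 1)) 1) = Q (rename Sum.inl f) := by
          refine hQ _ _ (mem_annOf_of_monomials fun e => ?_)
          obtain ⟨a, b, rfl⟩ := split_exp e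
          have h6 : (monomial (Finsupp.mapDomain Sum.inl 0 + Finsupp.mapDomain Sum.inr
              (Finsupp.single l 1 + Finsupp.single l 1) : σ ⊕ Fin c →₀ ℕ) (1 : k)) *
              monomial (a.mapDomain Sum.inl + b.mapDomain Sum.inr) 1 =
              monomial (a.mapDomain Sum.inl + (Finsupp.single l 2 + b).mapDomain Sum.inr) 1 := by
            have e2 : (Finsupp.single l 1 + Finsupp.single l 1 : Fin c →₀ ℕ) =
                Finsupp.single l 2 := by rw [← Finsupp.single_add]
            rw [monomial_mul, mul_one, e2, Finsupp.mapDomain_zero, zero_add,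
              Finsupp.mapDomain_add, add_left_comm]
          rw [sub_mul, map_sub, quadSum_inl_mul, h6, quadSum_mon]
          have hf0 : coeff 0 f = 0 := hf.coeff_eq_zero (by
            rw [map_zero]
            omega)
          have h7 : Finsupp.single l 2 + b ≠ 0 := by
            intro h
            have := congrArg Finsupp.degree h
            simp at this
          rw [if_neg h7, hf0, zero_add]
          simp only [ite_self, Finset.sum_const_zero, add_zero]
          have h8 : ∀ m, Finsupp.single l 2 + b = Finsupp.single m 2 ↔ (b = 0 ∧ m = l) := by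
            intro m
            constructor
            · intro h
              have h9 := congrArg Finsupp.degree h
              rw [map_add, Finsupp.degree_single, Finsupp.degree_single] at h9
              have h10 : b.degree = 0 := by omega
              rw [Finsupp.degree_eq_zero_iff] at h10
              refine ⟨h10, ?_⟩
              rw [h10, add_zero] at h
              exact (Finsupp.single_left_injective two_ne_zero h).symm
            · rintro ⟨rfl, rfl⟩
              rw [add_zero]
          simp only [h8]
          by_cases hb0 : b = 0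
          · subst hb0
            rw [if_pos rfl]
            by_cases ha0 : a = 0
            · subst ha0
              have h11 : f * monomial 0 1 = f := mul_one f
              rw [h11, hf1, Finset.sum_eq_single l]
              · rw [if_pos ⟨rfl, rfl, rfl⟩, sub_self]
              · intro m _ hm
                rw [if_neg]
                rintro ⟨-, -, h⟩
                exact hm h
              · intro h
                exact absurd (Finset.mem_univ _) h
            · have h12 : Φ (f * monomial a 1) = 0 := by
                refine hΦ (s + a.degree) ?_ _ (hf.mul (isHomogeneous_monomial _ rfl))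
                have : a.degree ≠ 0 := by
                  rw [Ne, Finsupp.degree_eq_zero_iff]
                  exact ha0
                omega
              rw [h12, sub_zero]
              refine Finset.sum_eq_zero fun m _ => if_neg ?_
              rintro ⟨h, -⟩
              exact ha0 h
          · rw [if_neg hb0, sub_zero]
            refine Finset.sum_eq_zero fun m _ => if_neg ?_
            rintro ⟨-, h, -⟩
            exact hb0 h
        rw [h5, ← hR]
        exact Submodule.mem_sup_left ⟨_, rfl⟩
      · refine hz _ (mixed_annOf (Or.inr ⟨hb, fun b' m h => ?_⟩) 1)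
        have h9 := congrArg Finsupp.degree h
        rw [map_add, map_add, Finsupp.degree_single, Finsupp.degree_single,
          Finsupp.degree_single] at h9
        have h10 : b'.degree = 0 := by omega
        rw [Finsupp.degree_eq_zero_iff] at h10
        rw [h10, add_zero, pair_single] at h
        exact hne (h.1.trans h.2.symm)
  have h1 := Submodule.finrank_add_le_finrank_add_finrank (LinearMap.range R)
    (Submodule.span k (Set.range fun l : Fin c => Q (X (Sum.inr l))))
  have h2 : Module.finrank k (LinearMap.range R) ≤ Module.finrank k (ApolarAlg Φ) :=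
    LinearMap.finrank_range_le R
  have h3 := finrank_range_le_card (R := k) (fun l : Fin c => Q (X (Sum.inr l)))
  rw [Fintype.card_fin] at h3
  have h4 : Module.finrank k W = Module.finrank k (ApolarAlg (quadSum Φ c)) := by
    rw [htop, finrank_top]
  have h5 : Set.finrank k (Set.range fun l : Fin c => Q (X (Sum.inr l))) =
    Module.finrank k (Submodule.span k (Set.range fun l : Fin c => Q (X (Sum.inr l)))) := rfl
  change Module.finrank k W ≤ _ at h1
  omega

end Pool.Agent.H37.CU
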