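import Pool.Agent.H37.CU.Stable
import Pool.Graph.R_pool_sql_team_seeded_35f281b4.K7.H1.SD.Thms

/-!
# Trilinear forms with algebraically independent coefficients
-/

set_option autoImplicit false

namespace Pool.Agent.H37.CU

open Pool.Agent.H826R3.SM Pool.Agent.TH671.SD Pool.Agent.K7.H1.SD MvPolynomial

variable {K : Type} [Field K]

section cub

variable {m : ℕ} {ι : Type} [Fintype ι] [DecidableEq ι]

theorem alt_sum (R : Finset (Fin m)) : ∑ S : Finset (Fin m), (-1 : K) ^ (m - S.card) *
    (if R ⊆ S then 1 else 0) = if R = Finset.univ then 1 else 0 := by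
  classical
  have h1 := Finset.prod_add (fun _ : Fin m => (1 : K)) (fun j => if j ∈ R then 0 else -1)
    Finset.univ
  have h2 : ∀ S ∈ (Finset.univ : Finset (Fin m)).powerset, (∏ i ∈ S, (1 : K)) *
      ∏ i ∈ Finset.univ \ S, (if i ∈ R then 0 else -1) =
      (-1 : K) ^ (m - S.card) * (if R ⊆ S then 1 else 0) := by
    intro S _
    rw [Finset.prod_const_one, one_mul]
    split_ifs with h
    · rw [mul_one, Finset.prod_congr rfl fun i hi => if_neg fun hR =>
        (Finset.mem_sdiff.1 hi).2 (h hR), Finset.prod_const,
        Finset.card_sdiff_of_subset (Finset.subset_univ _), Finset.card_univ, Fintype.card_fin]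
    · obtain ⟨i, hi, hiS⟩ := Finset.not_subset.1 h
      rw [mul_zero]
      exact Finset.prod_eq_zero (Finset.mem_sdiff.2 ⟨Finset.mem_univ i, hiS⟩) (if_pos hi)
  rw [Finset.sum_congr rfl h2, Finset.powerset_univ] at h1
  rw [← h1]
  split_ifs with h
  · subst h
    refine Finset.prod_eq_one fun j _ => ?_
    rw [if_pos (Finset.mem_univ j), add_zero]
  · obtain ⟨j, hj⟩ : ∃ j, j ∉ R := by
      by_contra hcon
      push Not at hcon
      exact h (Finset.eq_univ_iff_forall.2 hcon)
    refine Finset.prod_eq_zero (Finset.mem_univ j) ?_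
    rw [if_neg hj]
    ring

theorem full_iff {d : (Fin m × ι) →₀ ℕ} (hd : d.degree ≤ m) :
    d.support.image Prod.fst = Finset.univ ↔ Finsupp.mapDomain Prod.fst d = ones m := by
  classical
  have h1 : ∀ j, j ∈ d.support.image Prod.fst ↔ 1 ≤ Finsupp.mapDomain Prod.fst d j := by
    intro j
    rw [mapDomain_fst_apply, Nat.one_le_iff_ne_zero, Ne, Finset.sum_eq_zero_iff, Finset.mem_image]
    push Not
    constructor
    · rintro ⟨⟨j', i⟩, h, rfl⟩
      exact ⟨i, Finset.mem_univ _, Finsupp.mem_support_iff.1 h⟩
    · rintro ⟨i, -, h⟩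
      exact ⟨(j, i), Finsupp.mem_support_iff.2 h, rfl⟩
  constructor
  · intro h
    have h2 : ∀ j, 1 ≤ Finsupp.mapDomain Prod.fst d j := fun j => (h1 j).1 (h ▸ Finset.mem_univ j)
    have h3 : ∑ j : Fin m, Finsupp.mapDomain Prod.fst d j = d.degree := by
      rw [← Finsupp.degree_eq_sum, Finsupp.degree_mapDomain]
    have h4 : ∑ j : Fin m, 1 = ∑ j : Fin m, Finsupp.mapDomain Prod.fst d j := by
      refine le_antisymm (Finset.sum_le_sum fun j _ => h2 j) ?_
      rw [h3, Finset.sum_const, Finset.card_univ, Fintype.card_fin, smul_eq_mul, mul_one]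
      exact hd
    have h5 := (Finset.sum_eq_sum_iff_of_le fun j _ => h2 j).1 h4
    ext j
    rw [ones_apply]
    exact (h5 j (Finset.mem_univ j)).symm
  · intro h
    rw [Finset.eq_univ_iff_forall]
    intro j
    rw [h1, h, ones_apply]

/-- The cubature formula of a decomposition. -/
theorem cubature_mform {T : (Fin m → ι) → K} {r : ℕ} (h : TRk T r) :
    ∃ (P : Fin r × Finset (Fin m) → Fin m × ι → K) (α : Fin r × Finset (Fin m) → K),
      IsCubature m (mform T) P α := by
  classical
  obtain ⟨c, x, hx⟩ := h
  have key : ∀ F : MvPolynomial (Fin m × ι) K, ∑ t : Fin r × Finset (Fin m),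
      (c t.1 * (-1) ^ (m - t.2.card)) * eval (fun z => if z.1 ∈ t.2 then x t.1 z.1 z.2 else 0) F =
      ∑ d ∈ F.support, if d.support.image Prod.fst = Finset.univ then
        ∑ l, c l * (coeff d F * d.prod fun z k => x l z.1 z.2 ^ k) else 0 := by
    intro F
    have h1 : ∀ (t : Fin r × Finset (Fin m)) (d : (Fin m × ι) →₀ ℕ),
        eval (fun z => if z.1 ∈ t.2 then x t.1 z.1 z.2 else 0) (monomial d (coeff d F)) =
        (coeff d F * d.prod fun z k => x t.1 z.1 z.2 ^ k) *
          if d.support.image Prod.fst ⊆ t.2 then 1 else 0 := by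
      intro t d
      rw [eval_monomial]
      split_ifs with h
      · rw [mul_one]
        congr 1
        refine Finset.prod_congr rfl fun z hz => ?_
        beta_reduce
        rw [if_pos (h (Finset.mem_image_of_mem _ hz))]
      · obtain ⟨j, hj, hjS⟩ := Finset.not_subset.1 h
        obtain ⟨z, hz, rfl⟩ := Finset.mem_image.1 hj
        rw [mul_zero, Finsupp.prod, Finset.prod_eq_zero hz, mul_zero]
        rw [if_neg hjS, zero_pow (Finsupp.mem_support_iff.1 hz)]
    have h2 : ∀ t : Fin r × Finset (Fin m), eval (fun z => if z.1 ∈ t.2 then x t.1 z.1 z.2 else 0) F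
        = ∑ d ∈ F.support, (coeff d F * d.prod fun z k => x t.1 z.1 z.2 ^ k) *
          if d.support.image Prod.fst ⊆ t.2 then 1 else 0 := by
      intro t
      conv_lhs => rw [F.as_sum, map_sum]
      exact Finset.sum_congr rfl fun d _ => h1 t d
    simp only [h2, Finset.mul_sum]
    rw [Finset.sum_comm]
    refine Finset.sum_congr rfl fun d _ => ?_
    rw [Fintype.sum_prod_type]
    have h3 : ∀ l : Fin r, ∑ S : Finset (Fin m), (c l * (-1) ^ (m - S.card)) *
        ((coeff d F * d.prod fun z k => x l z.1 z.2 ^ k) *
          if d.support.image Prod.fst ⊆ S then 1 else 0) =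
        c l * (coeff d F * d.prod fun z k => x l z.1 z.2 ^ k) *
          if d.support.image Prod.fst = Finset.univ then 1 else 0 := by
      intro l
      rw [← alt_sum (K := K) (d.support.image Prod.fst), Finset.mul_sum]
      refine Finset.sum_congr rfl fun S _ => ?_
      ring
    rw [Finset.sum_congr rfl fun l _ => h3 l]
    split_ifs
    · simp only [mul_one]
    · simp only [mul_zero, Finset.sum_const_zero]
  refine ⟨fun t z => if z.1 ∈ t.2 then x t.1 z.1 z.2 else 0,
    fun t => c t.1 * (-1) ^ (m - t.2.card), ?_, ?_⟩
  · intro d hd F hF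
    rw [key]
    refine Finset.sum_eq_zero fun e he => if_neg fun h => ?_
    have h1 : e.degree = d := by
      rw [Finsupp.degree_eq_weight_one]
      exact hF (mem_support_iff.mp he)
    have h2 : (Finset.univ : Finset (Fin m)).card ≤ e.support.card := by
      rw [← h]
      exact Finset.card_image_le
    rw [Finset.card_univ, Fintype.card_fin] at h2
    have h3 : e.support.card ≤ e.degree := by
      rw [Finsupp.degree_apply, Finset.card_eq_sum_ones]
      exact Finset.sum_le_sum fun i hi => Nat.one_le_iff_ne_zero.2 (Finsupp.mem_support_iff.1 hi)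
    omega
  · intro F hF
    rw [key]
    conv_rhs => rw [F.as_sum, map_sum]
    refine Finset.sum_congr rfl fun e he => ?_
    have h1 : e.degree = m := by
      rw [Finsupp.degree_eq_weight_one]
      exact hF (mem_support_iff.mp he)
    rw [mform_eq hx]
    simp only [psi_monomial, coeff_monomial, full_iff h1.le]
    split_ifs
    · rfl
    · simp only [mul_zero, Finset.sum_const_zero]

end cub

section indep

variable [CharZero K] {v : ℕ}

theorem mform_ne (hv : 1 ≤ v) {T : (Fin 3 → Fin v) → K} (hT : AlgebraicIndependent ℚ T) :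
    mform T ≠ 0 := by
  intro h
  have h1 := mform_monomial T (fun _ => ⟨0, hv⟩) 1
  rw [h, mul_one, LinearMap.zero_apply] at h1
  exact (hT.ne_zero _) h1.symm

theorem flat_row_inj {T : (Fin 3 → Fin v) → K} (hT : AlgebraicIndependent ℚ T) (j : Fin 3) :
    LinearIndependent K fun i : Fin v => (flat T {j}).row (fun _ => i) := by
  rw [linearIndependent_iff_card_eq_finrank_span, Fintype.card_fin]
  have h1 := rank_flat_of_indep hT {j} (Finset.singleton_ne_empty j) (by
    intro h
    have := congrArg Finset.card h
    simp at this)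
  rw [Matrix.rank_eq_finrank_span_row] at h1
  have h2 : Set.range (flat T {j}).row = Set.range fun i : Fin v => (flat T {j}).row (fun _ => i) := by
    ext x
    constructor
    · rintro ⟨a, rfl⟩
      refine ⟨a j, ?_⟩
      funext b
      change (T fun j' => if j' ∈ ({j} : Finset (Fin 3)) then a j else b j') =
        T fun j' => if j' ∈ ({j} : Finset (Fin 3)) then a j' else b j'
      congr 1
      funext j'
      split_ifs with h
      · rw [Finset.mem_singleton.1 h]
      · rfl
    · rintro ⟨i, rfl⟩
      exact ⟨fun _ => i, rfl⟩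
  rw [← h2]
  exact h1.symm

theorem compressed_mform (hv : 1 ≤ v) {T : (Fin 3 → Fin v) → K}
    (hT : AlgebraicIndependent ℚ T) : Compressed 3 (mform T) := by
  classical
  intro n hn F hF hann
  have hn' : n ≤ 1 := by omega
  interval_cases n
  · have h1 := totalDegree_eq_zero_iff_eq_C.1 ((totalDegree_zero_iff_isHomogeneous _).2 hF)
    by_contra hne
    apply mform_ne hv hT
    refine LinearMap.ext fun G => ?_
    have h2 := hann G
    rw [h1, ← smul_eq_C_mul, map_smul, smul_eq_mul] at h2
    refine (mul_eq_zero.1 h2).resolve_left fun h3 => hne ?_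
    rw [h1, h3, map_zero]
  · have hsum : F = ∑ z : Fin 3 × Fin v, coeff (Finsupp.single z 1) F •
        monomial (Finsupp.single z 1) (1 : K) := by
      ext e
      rw [coeff_sum]
      simp only [coeff_smul, coeff_monomial, smul_eq_mul, mul_ite, mul_one, mul_zero]
      by_cases he : e.degree = 1
      · obtain ⟨z, rfl⟩ := deg_one he
        rw [Finset.sum_eq_single z, if_pos rfl]
        · intro z' _ hz'
          rw [if_neg]
          intro h
          exact hz' (Finsupp.single_left_injective one_ne_zero h)
        · intro h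
          exact absurd (Finset.mem_univ _) h
      · rw [hF.coeff_eq_zero he, Finset.sum_eq_zero]
        intro z _
        rw [if_neg]
        rintro rfl
        exact he (Finsupp.degree_single _ _)
    have hk : ∀ (j : Fin 3) (i : Fin v), coeff (Finsupp.single (j, i) 1) F = 0 := by
      intro j
      have h1 := (mem_annOf_iff_kap T F).1 hann {j}
      rw [hsum, map_sum, Fintype.sum_prod_type, Finset.sum_eq_single j] at h1
      · have h2 : ∀ i : Fin v, kap T {j} (coeff (Finsupp.single (j, i) 1) F •
            monomial (Finsupp.single (j, i) 1) (1 : K)) =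
            coeff (Finsupp.single (j, i) 1) F • (flat T {j}).row (fun _ => i) := by
          intro i
          have h3 : Finsupp.single (j, i) 1 = mexpS ({j} : Finset (Fin 3)) (fun _ => i) := by
            unfold mexpS
            rw [Finset.sum_singleton]
          rw [map_smul]
          congr 1
          rw [h3, kap_mon, if_pos rfl]
        rw [Finset.sum_congr rfl fun i _ => h2 i] at h1
        exact Fintype.linearIndependent_iff.1 (flat_row_inj hT j) _ h1
      · intro j' _ hj'
        refine Finset.sum_eq_zero fun i _ => ?_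
        have h3 : Finsupp.single (j', i) 1 = mexpS ({j'} : Finset (Fin 3)) (fun _ => i) := by
          unfold mexpS
          rw [Finset.sum_singleton]
        rw [map_smul, h3, kap_mon, if_neg, smul_zero]
        intro h
        exact hj' (Finset.singleton_injective h)
      · intro h
        exact absurd (Finset.mem_univ _) h
    rw [hsum]
    refine Finset.sum_eq_zero fun z _ => ?_
    rw [hk z.1 z.2, zero_smul]

end indep

end Pool.Agent.H37.CU
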