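import Pool.Agent.H37.CU.Esymm
import Pool.Agent.H37.CU.CubDef

/-!
# Cubature formulas and matroids
-/

set_option autoImplicit false

namespace Pool.Agent.H37.CU

open Pool.Agent.H826R3.SM MvPolynomial
open scoped PowerSeries

variable {k : Type} [Field k]

/-- Möbius inversion. -/
theorem exists_mobius {L : Type} [Fintype L] [PartialOrder L] [DecidableRel (α := L) (· ≤ ·)]
    (g : L → k) : ∃ α : L → k, ∀ G, (∑ F, if G ≤ F then α F else 0) = g G := by
  let Z : (L → k) →ₗ[k] (L → k) := LinearMap.pi fun G => ∑ F, if G ≤ F then LinearMap.proj F else 0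
  have hZ : ∀ α G, Z α G = ∑ F, if G ≤ F then α F else 0 := by
    intro α G
    change (∑ F, if G ≤ F then (LinearMap.proj F : (L → k) →ₗ[k] k) else 0) α = _
    rw [LinearMap.sum_apply]
    refine Finset.sum_congr rfl fun F _ => ?_
    split_ifs <;> rfl
  have hinj : Function.Injective Z := by
    rw [injective_iff_map_eq_zero]
    intro α hα
    funext G
    induction G using WellFoundedGT.induction with
    | ind G ih =>
      have h1 : Z α G = 0 := by rw [hα]; rfl
      rw [hZ, Finset.sum_eq_single G, if_pos le_rfl] at h1
      · exact h1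
      · intro F _ hF
        split_ifs with h
        · exact ih F (lt_of_le_of_ne h hF.symm)
        · rfl
      · intro h
        exact absurd (Finset.mem_univ _) h
  obtain ⟨α, hα⟩ := LinearMap.injective_iff_surjective.1 hinj g
  exact ⟨α, fun G => by rw [← hZ, hα]⟩

variable {n : ℕ}

open Classical in
/-- The basis generating polynomial of a matroid. -/
noncomputable def basisPoly (k : Type) [Field k] (M : Matroid (Fin n)) : MvPolynomial (Fin n) k :=
  ∑ B ∈ Finset.univ.filter (fun B : Finset (Fin n) => M.IsBase (B : Set (Fin n))), ∏ i ∈ B, X i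

/-- The number of flats of a matroid. -/
noncomputable def numFlats (M : Matroid (Fin n)) : ℕ := Nat.card {F : Set (Fin n) // M.IsFlat F}

open Classical in
theorem apolar_basisPoly (M : Matroid (Fin n)) (a : Fin n →₀ ℕ) (c : k) :
    apolar (basisPoly k M) (monomial a c) =
      if M.IsBase (a.support : Set (Fin n)) ∧ a = ind a.support then c else 0 := by
  rw [apolar_monomial, basisPoly, coeff_sum]
  have e : ∀ t : Finset (Fin n), coeff a (∏ i ∈ t, (X i : MvPolynomial (Fin n) k)) =
      if ind t = a then 1 else 0 := fun t => by
    have : (∏ i ∈ t, (X i : MvPolynomial (Fin n) k)) = monomial (ind t) 1 := by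
      unfold ind
      rw [monomial_sum_one]
      rfl
    rw [this, coeff_monomial]
  simp only [e]
  split_ifs with h
  · have ha : ind a.support = a := h.2.symm
    rw [Finset.sum_eq_single a.support]
    · rw [if_pos ha, mul_one]
      have h3 : (a.prod fun _ m => (m.factorial : k)) = 1 := by
        refine Finset.prod_eq_one fun i hi => ?_
        change ((a i).factorial : k) = 1
        have h4 : a i = 1 := by
          rw [← ha, ind_apply, if_pos hi]
        rw [h4]
        simp
      rw [h3, mul_one]
    · intro t _ ht
      rw [if_neg]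
      intro h3
      apply ht
      rw [← h3, ind_support]
    · intro h3
      exact absurd (Finset.mem_filter.2 ⟨Finset.mem_univ a.support, h.1⟩) h3
  · rw [Finset.sum_eq_zero, mul_zero, mul_zero]
    intro t ht
    rw [if_neg]
    intro h3
    apply h
    rw [← h3, ind_support]
    exact ⟨(Finset.mem_filter.1 ht).2, rfl⟩

/-- The rank. -/
noncomputable def rkM (M : Matroid (Fin n)) : ℕ := M.exists_isBase.choose.ncard

theorem card_base {M : Matroid (Fin n)} {B : Finset (Fin n)} (hB : M.IsBase (B : Set (Fin n))) :
    B.card = rkM M := by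
  have := hB.ncard_eq_ncard_of_isBase M.exists_isBase.choose_spec
  rwa [Set.ncard_coe_finset] at this

theorem basisPoly_dual (M : Matroid (Fin n)) : IsDualForm (rkM M) (apolar (basisPoly k M)) := by
  intro m hm F hF
  rw [F.as_sum, map_sum]
  refine Finset.sum_eq_zero fun a ha => ?_
  rw [apolar_basisPoly, if_neg]
  rintro ⟨h1, h2⟩
  apply hm
  have h3 := card_base h1
  rw [← ind_degree a.support, ← h2] at h3
  rw [← h3, Finsupp.degree_eq_weight_one]
  exact (hF (mem_support_iff.mp ha)).symm

theorem basisPoly_ne (M : Matroid (Fin n)) : apolar (basisPoly k M) ≠ 0 := by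
  obtain ⟨B, hB⟩ := M.exists_isBase
  obtain ⟨B', rfl⟩ := (Set.toFinite B).exists_finset_coe
  intro h
  have h1 := apolar_basisPoly (k := k) M (ind B') 1
  rw [h, ind_support, if_pos ⟨hB, rfl⟩] at h1
  exact zero_ne_one h1

theorem spanning_card {M : Matroid (Fin n)} {S : Finset (Fin n)} (h : M.Spanning (S : Set (Fin n)))
    (hc : S.card ≤ rkM M) : M.IsBase (S : Set (Fin n)) := by
  obtain ⟨B, hB, hBS⟩ := h.exists_isBase_subset
  obtain ⟨B', rfl⟩ := (Set.toFinite B).exists_finset_coe
  have h1 : B' ⊆ S := Finset.coe_subset.1 hBS
  rwa [← Finset.eq_of_subset_of_card_le h1 (by rw [card_base hB]; exact hc)]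

theorem matroid_cubature (k : Type) [Field k] (M : Matroid (Fin n)) :
    ∃ (P : Fin (numFlats M) → Fin n → k) (α : Fin (numFlats M) → k),
      IsCubature (rkM M) (apolar (basisPoly k M)) P α := by
  classical
  have : Finite {F : Set (Fin n) // M.IsFlat F} := Subtype.finite
  let _ := Fintype.ofFinite {F : Set (Fin n) // M.IsFlat F}
  obtain ⟨α, hα⟩ := exists_mobius (k := k) (L := {F : Set (Fin n) // M.IsFlat F})
    (fun G => if G.1 = M.E then 1 else 0)
  have hcard : Fintype.card {F : Set (Fin n) // M.IsFlat F} = numFlats M :=
    (Nat.card_eq_fintype_card).symm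
  let e : Fin (numFlats M) ≃ {F : Set (Fin n) // M.IsFlat F} :=
    (Fintype.equivFinOfCardEq hcard).symm
  have key : ∀ (a : Fin n →₀ ℕ) (c : k), ∑ i, α (e i) * eval (fun v => if v ∈ (e i).1 then (1 : k)
      else 0) (monomial a c) = if M.Spanning (a.support : Set (Fin n)) then c else 0 := by
    intro a c
    rw [Equiv.sum_comp e (fun F => α F * eval (fun v => if v ∈ F.1 then (1 : k) else 0)
      (monomial a c))]
    have h1 : ∀ F : {F : Set (Fin n) // M.IsFlat F}, eval (fun v => if v ∈ F.1 then (1 : k) else 0)
        (monomial a c) = if (a.support : Set (Fin n)) ⊆ F.1 then c else 0 := by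
      intro F
      rw [eval_monomial]
      split_ifs with h
      · rw [Finsupp.prod, Finset.prod_eq_one, mul_one]
        intro v hv
        rw [if_pos (h hv), one_pow]
      · obtain ⟨v, hv, hvU⟩ := Set.not_subset.1 h
        rw [Finsupp.prod, Finset.prod_eq_zero hv, mul_zero]
        rw [if_neg hvU, zero_pow (Finsupp.mem_support_iff.1 hv)]
    simp only [h1]
    by_cases hE : (a.support : Set (Fin n)) ⊆ M.E
    · have h2 := hα ⟨M.closure a.support, M.isFlat_closure _⟩
      have h3 : ∀ F : {F : Set (Fin n) // M.IsFlat F},
          (⟨M.closure a.support, M.isFlat_closure _⟩ : {F : Set (Fin n) // M.IsFlat F}) ≤ F ↔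
            (a.support : Set (Fin n)) ⊆ F.1 := by
        intro F
        change M.closure a.support ⊆ F.1 ↔ _
        constructor
        · intro h
          exact (M.subset_closure _ hE).trans h
        · intro h
          rw [← F.2.closure]
          exact M.closure_subset_closure h
      simp only [h3] at h2
      have h4 : ∀ F : {F : Set (Fin n) // M.IsFlat F}, α F * (if (a.support : Set (Fin n)) ⊆ F.1
          then c else 0) = c * if (a.support : Set (Fin n)) ⊆ F.1 then α F else 0 := by
        intro F
        split_ifs
        · rw [mul_comm]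
        · rw [mul_zero, mul_zero]
      rw [Finset.sum_congr rfl fun F _ => h4 F, ← Finset.mul_sum, h2]
      simp only [M.spanning_iff_closure_eq hE]
      split_ifs
      · rw [mul_one]
      · rw [mul_zero]
    · rw [if_neg fun h => hE h.subset_ground, Finset.sum_eq_zero]
      intro F _
      rw [if_neg fun h => hE (h.trans F.2.subset_ground), mul_zero]
  have hsum : ∀ (F : MvPolynomial (Fin n) k), ∑ i, α (e i) * eval (fun v => if v ∈ (e i).1 then
      (1 : k) else 0) F = ∑ a ∈ F.support, if M.Spanning (a.support : Set (Fin n)) then coeff a F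
        else 0 := by
    intro F
    rw [← Finset.sum_congr rfl fun a _ => key a (coeff a F), Finset.sum_comm]
    refine Finset.sum_congr rfl fun i _ => ?_
    conv_lhs => rw [F.as_sum, map_sum, Finset.mul_sum]
  refine ⟨fun i v => if v ∈ (e i).1 then 1 else 0, fun i => α (e i), ?_, ?_⟩
  · intro d hd F hF
    rw [hsum]
    refine Finset.sum_eq_zero fun a ha => if_neg fun h => ?_
    have h1 : a.degree = d := by
      rw [Finsupp.degree_eq_weight_one]
      exact hF (mem_support_iff.mp ha)
    have h2 := support_card_le a
    have h3 := card_base (spanning_card h (by omega))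
    omega
  · intro F hF
    rw [hsum]
    conv_rhs => rw [F.as_sum, map_sum]
    refine Finset.sum_congr rfl fun a ha => ?_
    rw [apolar_basisPoly]
    refine if_congr ?_ rfl rfl
    have h1 : a.degree = rkM M := by
      rw [Finsupp.degree_eq_weight_one]
      exact hF (mem_support_iff.mp ha)
    have h2 := support_card_le a
    constructor
    · intro h
      have h3 := spanning_card h (by omega)
      exact ⟨h3, eq_ind (by rw [card_base h3, h1])⟩
    · rintro ⟨h3, -⟩
      exact h3.spanning

end Pool.Agent.H37.CU
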