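import Mathlib

/-!
# Orthonormal families in orthogonal complements
-/

set_option autoImplicit false

namespace Pool.Agent.H37.CU

variable {k : Type} [Field k]

/-- The bilinear form with weights `α`. -/
noncomputable def wform {N : ℕ} (α : Fin N → k) : LinearMap.BilinForm k (Fin N → k) :=
  LinearMap.mk₂ k (fun u v => ∑ i, α i * (u i * v i))
    (fun a b c => by
      rw [← Finset.sum_add_distrib]
      refine Finset.sum_congr rfl fun i _ => ?_
      simp only [Pi.add_apply]
      ring)
    (fun a b c => by
      rw [smul_eq_mul, Finset.mul_sum]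
      refine Finset.sum_congr rfl fun i _ => ?_
      simp only [Pi.smul_apply, smul_eq_mul]
      ring)
    (fun a b c => by
      rw [← Finset.sum_add_distrib]
      refine Finset.sum_congr rfl fun i _ => ?_
      simp only [Pi.add_apply]
      ring)
    (fun a b c => by
      rw [smul_eq_mul, Finset.mul_sum]
      refine Finset.sum_congr rfl fun i _ => ?_
      simp only [Pi.smul_apply, smul_eq_mul]
      ring)

theorem wform_apply {N : ℕ} (α : Fin N → k) (u v : Fin N → k) :
    wform α u v = ∑ i, α i * (u i * v i) := rfl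

theorem wform_symm {N : ℕ} (α : Fin N → k) : (wform α).IsSymm := by
  refine ⟨fun u v => ?_⟩
  rw [wform_apply, wform_apply]
  refine Finset.sum_congr rfl fun i _ => ?_
  ring

theorem wform_nondeg {N : ℕ} {α : Fin N → k} (hα : ∀ i, α i ≠ 0) : (wform α).Nondegenerate := by
  have key : ∀ u : Fin N → k, (∀ v, wform α u v = 0) → u = 0 := by
    intro u hu
    funext i
    have h := hu (Pi.single i 1)
    rw [wform_apply, Finset.sum_eq_single i] at h
    · simp only [Pi.single_eq_same, mul_one] at h
      exact (mul_eq_zero.1 h).resolve_left (hα i)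
    · intro j _ hj
      rw [Pi.single_eq_of_ne hj, mul_zero, mul_zero]
    · intro h'
      exact absurd (Finset.mem_univ _) h'
  refine ⟨key, fun v hv => key v fun u => ?_⟩
  have := hv u
  rwa [← (wform_symm α).eq u v]

/-- Orthonormal families in the orthogonal complement of a subspace. -/
theorem exists_orthonormal [IsAlgClosed k] (h2 : (2 : k) ≠ 0) {N : ℕ} {α : Fin N → k}
    (hα : ∀ i, α i ≠ 0) (E R : Submodule k (Fin N → k))
    (hR : ∀ u ∈ E, (∀ w ∈ E, wform α u w = 0) → u ∈ R) (c : ℕ)
    (hc : Module.finrank k E + Module.finrank k R + c ≤ N) :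
    ∃ y : Fin c → Fin N → k, (∀ l, ∀ u ∈ E, wform α (y l) u = 0) ∧
      ∀ l l', wform α (y l) (y l') = if l = l' then 1 else 0 := by
  classical
  have hnd := wform_nondeg hα
  have hsym := wform_symm α
  have hrefl : (wform α).IsRefl := hsym.isRefl
  let W := (wform α).orthogonal E
  have hW : Module.finrank k W = N - Module.finrank k E := by
    have := LinearMap.BilinForm.finrank_orthogonal hnd E
    rw [Module.finrank_fin_fun] at this
    exact this
  let _ : Invertible (2 : k) := invertibleOfNonzero h2
  obtain ⟨v, hv⟩ := LinearMap.BilinForm.exists_orthogonal_basis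
    (B := (wform α).restrict W) ⟨fun x y => hsym.eq x.1 y.1⟩
  have hvo : ∀ i j, i ≠ j → wform α (v i) (v j) = 0 := fun i j hij => hv hij
  -- isotropic basis vectors
  have hiso : ∀ j, wform α (v j) (v j) = 0 → (v j : Fin N → k) ∈ R := by
    intro j hj
    have h1 : ∀ w ∈ W, wform α (v j) w = 0 := by
      intro w hw
      have h3 : w = ∑ i, v.repr ⟨w, hw⟩ i • (v i : Fin N → k) := by
        calc w = ((⟨w, hw⟩ : W) : Fin N → k) := rfl
          _ = ((∑ i, v.repr ⟨w, hw⟩ i • v i : W) : Fin N → k) := by rw [v.sum_repr]
          _ = _ := by rw [Submodule.coe_sum]; rfl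
      rw [h3, map_sum]
      refine Finset.sum_eq_zero fun i _ => ?_
      rw [map_smul]
      rcases eq_or_ne j i with rfl | hne
      · rw [hj, smul_zero]
      · rw [hvo j i hne, smul_zero]
    have h4 : (v j : Fin N → k) ∈ (wform α).orthogonal W := by
      rw [LinearMap.BilinForm.mem_orthogonal_iff]
      intro w hw
      change wform α w (v j) = 0
      rw [← hsym.eq (v j : Fin N → k) w]
      exact h1 w hw
    rw [LinearMap.BilinForm.orthogonal_orthogonal hnd hrefl] at h4
    refine hR _ h4 fun w hw => ?_
    have h5 := (LinearMap.BilinForm.mem_orthogonal_iff.1 (v j).2) w hw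
    change wform α w (v j) = 0 at h5
    rw [← hsym.eq w (v j : Fin N → k)]
    exact h5
  have hcard : Fintype.card {j // wform α (v j) (v j) = 0} ≤ Module.finrank k R := by
    have hli : LinearIndependent k (fun j : {j // wform α (v j) (v j) = 0} =>
        (⟨(v j.1 : Fin N → k), hiso j.1 j.2⟩ : R)) := by
      have h1 : LinearIndependent k (fun j => (v j : Fin N → k)) :=
        v.linearIndependent.map' W.subtype (Submodule.ker_subtype W)
      have h2 := h1.comp (Subtype.val : {j // wform α (v j) (v j) = 0} → _)
        Subtype.val_injective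
      exact LinearIndependent.of_comp R.subtype h2
    exact hli.fintype_card_le_finrank
  have hcompl := Fintype.card_subtype_compl (fun j => wform α (v j) (v j) = 0)
  rw [Fintype.card_fin] at hcompl
  have hc' : c ≤ Fintype.card {j // ¬ wform α (v j) (v j) = 0} := by
    rw [hcompl]
    omega
  obtain ⟨emb⟩ : Nonempty (Fin c ↪ {j // ¬ wform α (v j) (v j) = 0}) := by
    refine Function.Embedding.nonempty_of_card_le ?_
    rwa [Fintype.card_fin]
  choose q hq using fun l : Fin c => IsAlgClosed.exists_pow_nat_eq
    (wform α (v (emb l).1) (v (emb l).1)) (n := 2) two_pos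
  have hq0 : ∀ l, q l ≠ 0 := by
    intro l h
    apply (emb l).2
    rw [← hq l, h]
    ring
  refine ⟨fun l => (q l)⁻¹ • (v (emb l).1 : Fin N → k), fun l u hu => ?_, fun l l' => ?_⟩
  · rw [map_smul, LinearMap.smul_apply]
    have h5 := (LinearMap.BilinForm.mem_orthogonal_iff.1 (v (emb l).1).2) u hu
    change wform α u (v (emb l).1) = 0 at h5
    rw [← hsym.eq u (v (emb l).1 : Fin N → k)]
    change (q l)⁻¹ • wform α u (v (emb l).1) = 0
    rw [h5, smul_zero]
  · change wform α ((q l)⁻¹ • (v (emb l).1 : Fin N → k)) ((q l')⁻¹ • (v (emb l').1 : Fin N → k)) = _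
    rw [map_smul, map_smul, LinearMap.smul_apply]
    split_ifs with h
    · subst h
      rw [← hq l, smul_eq_mul, smul_eq_mul]
      field_simp [hq0 l]
    · rw [hvo _ _ (fun h' => h (emb.injective (Subtype.ext h'))), smul_zero, smul_zero]

end Pool.Agent.H37.CU
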