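import Pool.Agent.H37.CU.Quad

/-!
# The dimension of the apolar algebra of a sum with squares of new variables
-/

set_option autoImplicit false

namespace Pool.Agent.H37.CU

open Pool.Agent.H826R3.SM MvPolynomial
open scoped PowerSeries

variable {k σ : Type} [Field k] {Φ : MvPolynomial σ k →ₗ[k] k} {c : ℕ}

theorem quadSum_large {s : ℕ} (hΦ : IsDualForm s Φ) (e : σ ⊕ Fin c →₀ ℕ) (r : k)
    (he : s + 2 < e.degree) : quadSum Φ c (monomial e r) = 0 := by
  classical
  obtain ⟨a, b, rfl⟩ := split_exp e
  have h1 : (a.mapDomain Sum.inl + b.mapDomain Sum.inr : σ ⊕ Fin c →₀ ℕ).degree =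
      a.degree + b.degree := by
    rw [map_add, Finsupp.degree_mapDomain, Finsupp.degree_mapDomain]
  rw [h1] at he
  rw [quadSum_mon]
  have h2 : (if b = 0 then Φ (monomial a r) else 0) = 0 := by
    split_ifs with h
    · rw [h, map_zero] at he
      exact hΦ a.degree (by omega) _ (isHomogeneous_monomial _ rfl)
    · rfl
  rw [h2, zero_add]
  refine Finset.sum_eq_zero fun l _ => if_neg ?_
  rintro ⟨ha, hb⟩
  rw [ha, hb, map_zero, Finsupp.degree_single] at he
  omega

theorem finite_quadSum [Finite σ] {s : ℕ} (hΦ : IsDualForm s Φ) :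
    Module.Finite k (ApolarAlg (quadSum Φ c)) := by
  classical
  have hfin : {e : σ ⊕ Fin c →₀ ℕ | e.degree ≤ s + 2}.Finite := by
    have := Fintype.ofFinite σ
    refine Set.Finite.subset (Finset.finite_toSet ((Finset.range (s + 3)).biUnion fun d =>
      Finset.finsuppAntidiag Finset.univ d)) ?_
    intro e he
    rw [Finset.mem_coe, Finset.mem_biUnion]
    refine ⟨e.degree, Finset.mem_range.2 (by
      have : e.degree ≤ s + 2 := he
      omega), ?_⟩
    rw [Finset.mem_finsuppAntidiag]
    exact ⟨(Finsupp.degree_eq_sum e).symm, Finset.subset_univ _⟩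
  refine ⟨⟨(hfin.image fun e => (Ideal.Quotient.mk (annOf (quadSum Φ c)) (monomial e 1) :
    ApolarAlg (quadSum Φ c))).toFinset, ?_⟩⟩
  rw [eq_top_iff]
  intro x _
  obtain ⟨F, rfl⟩ := Ideal.Quotient.mk_surjective x
  rw [F.as_sum, map_sum]
  refine Submodule.sum_mem _ fun e _ => ?_
  rcases le_or_gt e.degree (s + 2) with h | h
  · have h1 : (monomial e (coeff e F) : MvPolynomial (σ ⊕ Fin c) k) =
        (coeff e F) • monomial e 1 := by
      rw [smul_monomial, smul_eq_mul, mul_one]
    rw [h1]
    have h2 : (Ideal.Quotient.mk (annOf (quadSum Φ c))) ((coeff e F) • monomial e (1 : k)) =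
        (coeff e F) • (Ideal.Quotient.mk (annOf (quadSum Φ c)) (monomial e 1)) := rfl
    rw [h2]
    refine Submodule.smul_mem _ _ (Submodule.subset_span ?_)
    rw [Set.Finite.coe_toFinset]
    exact ⟨e, h, rfl⟩
  · have h1 : (monomial e (coeff e F) : MvPolynomial (σ ⊕ Fin c) k) ∈ annOf (quadSum Φ c) := by
      intro G
      rw [G.as_sum, Finset.mul_sum, map_sum]
      refine Finset.sum_eq_zero fun e' _ => ?_
      rw [monomial_mul]
      refine quadSum_large hΦ _ _ ?_
      rw [map_add]
      omega
    rw [Ideal.Quotient.eq_zero_iff_mem.2 h1]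
    exact Submodule.zero_mem _

/-- Polynomials in the old variables. -/
theorem quadSum_inl (F : MvPolynomial σ k) : quadSum Φ c (rename Sum.inl F) = Φ F := by
  classical
  rw [quadSum_apply, aeval_rename]
  have h1 : ((Sum.elim X fun _ : Fin c => (0 : MvPolynomial σ k)) ∘ Sum.inl) = X := rfl
  rw [h1, aeval_X_left_apply]
  rw [Finset.sum_eq_zero, add_zero]
  intro l _
  apply coeff_rename_eq_zero
  intro u hu
  exfalso
  have := DFunLike.congr_fun hu (Sum.inr l)
  rw [Finsupp.mapDomain_of_notMem_range, Finsupp.single_eq_same] at this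
  · omega
  · rintro ⟨x, hx⟩
    cases hx

theorem quadSum_inl_X (F : MvPolynomial σ k) (l : Fin c) :
    quadSum Φ c (rename Sum.inl F * X (Sum.inr l)) = 0 := by
  classical
  induction F using MvPolynomial.induction_on' with
  | add F G hF hG => rw [map_add, add_mul, map_add, hF, hG, add_zero]
  | monomial a r =>
    have h1 : (rename Sum.inl (monomial a r) * X (Sum.inr l) : MvPolynomial (σ ⊕ Fin c) k) =
        monomial (a.mapDomain Sum.inl + (Finsupp.single l 1).mapDomain Sum.inr) r := by
      rw [rename_monomial, X, monomial_mul, mul_one, Finsupp.mapDomain_single]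
    rw [h1, quadSum_mon, if_neg, zero_add]
    · refine Finset.sum_eq_zero fun l' _ => if_neg ?_
      rintro ⟨-, h⟩
      have := congrArg Finsupp.degree h
      simp at this
    · intro h
      have := congrArg Finsupp.degree h
      simp at this

theorem quadSum_X_X (l l' : Fin c) :
    quadSum Φ c (X (Sum.inr l) * X (Sum.inr l')) = if l = l' then 1 else 0 := by
  classical
  have h1 : (X (Sum.inr l) * X (Sum.inr l') : MvPolynomial (σ ⊕ Fin c) k) =
      monomial ((0 : σ →₀ ℕ).mapDomain Sum.inl + (Finsupp.single l 1 +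
        Finsupp.single l' 1).mapDomain Sum.inr) 1 := by
    rw [X, X, monomial_mul, mul_one, Finsupp.mapDomain_zero, zero_add, Finsupp.mapDomain_add,
      Finsupp.mapDomain_single, Finsupp.mapDomain_single]
  rw [h1, quadSum_mon, if_neg, zero_add]
  · simp only [true_and, pair_single]
    by_cases h : l = l'
    · subst h
      rw [if_pos rfl, Finset.sum_eq_single l]
      · rw [if_pos ⟨rfl, rfl⟩]
      · intro l'' _ hne
        rw [if_neg]
        rintro ⟨h1, -⟩
        exact hne h1.symm
      · intro h
        exact absurd (Finset.mem_univ l) h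
    · rw [if_neg h]
      refine Finset.sum_eq_zero fun l'' _ => if_neg ?_
      rintro ⟨h1, h2⟩
      exact h (h1.trans h2.symm)
  · intro h
    have := congrArg Finsupp.degree h
    simp at this

theorem le_finrank_quadSum [Module.Finite k (ApolarAlg Φ)]
    [Module.Finite k (ApolarAlg (quadSum Φ c))] :
    Module.finrank k (ApolarAlg Φ) + c ≤ Module.finrank k (ApolarAlg (quadSum Φ c)) := by
  classical
  let q : MvPolynomial σ k →ₗ[k] ApolarAlg Φ := (Ideal.Quotient.mkₐ k (annOf Φ)).toLinearMap
  obtain ⟨sec, hsec⟩ := LinearMap.exists_rightInverse_of_surjective q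
    (LinearMap.range_eq_top.2 Ideal.Quotient.mk_surjective)
  let L : (ApolarAlg Φ × (Fin c → k)) →ₗ[k] MvPolynomial (σ ⊕ Fin c) k :=
    ((rename Sum.inl : MvPolynomial σ k →ₐ[k] MvPolynomial (σ ⊕ Fin c) k).toLinearMap ∘ₗ sec).coprod
      (∑ l, (LinearMap.toSpanSingleton k _ (X (Sum.inr l))) ∘ₗ LinearMap.proj l)
  have hL : ∀ x u, L (x, u) = rename Sum.inl (sec x) + ∑ l, u l • X (Sum.inr l) := by
    intro x u
    change rename Sum.inl (sec x) + (∑ l, (LinearMap.toSpanSingleton k _ (X (Sum.inr l))) ∘ₗ
      LinearMap.proj l : (Fin c → k) →ₗ[k] MvPolynomial (σ ⊕ Fin c) k) u = _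
    rw [LinearMap.sum_apply]
    rfl
  let Q : MvPolynomial (σ ⊕ Fin c) k →ₗ[k] ApolarAlg (quadSum Φ c) :=
    (Ideal.Quotient.mkₐ k (annOf (quadSum Φ c))).toLinearMap
  have hinj : Function.Injective (Q ∘ₗ L) := by
    rw [injective_iff_map_eq_zero]
    rintro ⟨x, u⟩ h
    have h1 : L (x, u) ∈ annOf (quadSum Φ c) := Ideal.Quotient.eq_zero_iff_mem.1 h
    rw [hL] at h1
    have hu : u = 0 := by
      funext m
      have h2 := h1 (X (Sum.inr m))
      rw [add_mul, map_add, quadSum_inl_X, zero_add, Finset.sum_mul, map_sum,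
        Finset.sum_eq_single m] at h2
      · rw [smul_mul_assoc, map_smul, quadSum_X_X, if_pos rfl, smul_eq_mul, mul_one] at h2
        exact h2
      · intro l _ hl
        rw [smul_mul_assoc, map_smul, quadSum_X_X, if_neg hl, smul_zero]
      · intro h
        exact absurd (Finset.mem_univ _) h
    subst hu
    have hx : sec x ∈ annOf Φ := by
      intro G
      have h2 := h1 (rename Sum.inl G)
      simp only [Pi.zero_apply, zero_smul, Finset.sum_const_zero, add_zero] at h2
      rwa [← map_mul, quadSum_inl] at h2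
    have h3 : q (sec x) = 0 := Ideal.Quotient.eq_zero_iff_mem.2 hx
    have h4 : q (sec x) = x := LinearMap.congr_fun hsec x
    rw [h4] at h3
    rw [h3]
    rfl
  have h5 := LinearMap.finrank_le_finrank_of_injective hinj
  rwa [Module.finrank_prod, Module.finrank_fin_fun] at h5

end Pool.Agent.H37.CU
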