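import Pool.Agent.H37.CU.CubPts
import Pool.Agent.H37.CU.QDim
import Pool.Agent.H37.CU.Iso
import Pool.Agent.H37.CU.Ortho
import Pool.Graph.R_seed8.R566.CV.Sub

/-!
# Stable smoothability of compressed apolar algebras
-/

set_option autoImplicit false

namespace Pool.Agent.H37.CU

open Pool.Agent.H826R3.SM MvPolynomial

variable {k σ : Type} [Field k] {s : ℕ} {Φ : MvPolynomial σ k →ₗ[k] k}

/-- A dual form of degree `s` is compressed if no nonzero form of degree at most `s / 2` annihilates
it: the Hilbert function of the apolar algebra has the largest possible values. -/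
def Compressed (s : ℕ) (Φ : MvPolynomial σ k →ₗ[k] k) : Prop :=
  ∀ n, 2 * n ≤ s → ∀ F : MvPolynomial σ k, F.IsHomogeneous n → F ∈ annOf Φ → F = 0

theorem component_mem_annOf (hΦ : IsDualForm s Φ) {F : MvPolynomial σ k} (hF : F ∈ annOf Φ)
    (j : ℕ) : homogeneousComponent j F ∈ annOf Φ := by
  intro G
  rw [← sum_homogeneousComponent G, Finset.mul_sum, map_sum]
  refine Finset.sum_eq_zero fun m _ => ?_
  have hj := homogeneousComponent_isHomogeneous j F
  have hm := homogeneousComponent_isHomogeneous m G
  by_cases h : j + m = s
  · have h1 := hF (homogeneousComponent m G)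
    rw [← sum_homogeneousComponent F, Finset.sum_mul, map_sum] at h1
    by_cases hj' : j ∈ Finset.range (F.totalDegree + 1)
    · rw [Finset.sum_eq_single j] at h1
      · exact h1
      · intro i _ hi
        exact hΦ (i + m) (by omega) _ ((homogeneousComponent_isHomogeneous i F).mul hm)
      · intro h'
        exact absurd hj' h'
    · rw [Finset.mem_range, not_lt] at hj'
      rw [homogeneousComponent_eq_zero _ _ (by omega), zero_mul, map_zero]
  · exact hΦ (j + m) h _ (hj.mul hm)

theorem eq_zero_of_compressed (hΦ : IsDualForm s Φ) (hc : Compressed s Φ) {F : MvPolynomial σ k}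
    (hF : F ∈ annOf Φ) (hd : 2 * F.totalDegree ≤ s) : F = 0 := by
  rw [← sum_homogeneousComponent F]
  refine Finset.sum_eq_zero fun j hj => ?_
  rw [Finset.mem_range] at hj
  exact hc j (by omega) _ (homogeneousComponent_isHomogeneous j F) (component_mem_annOf hΦ hF j)

theorem dual_low (hΦ : IsDualForm s Φ) {F : MvPolynomial σ k} (hF : F.totalDegree < s) :
    Φ F = 0 := by
  rw [← sum_homogeneousComponent F, map_sum]
  refine Finset.sum_eq_zero fun j hj => ?_
  rw [Finset.mem_range] at hj
  exact hΦ j (by omega) _ (homogeneousComponent_isHomogeneous j F)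

theorem compressed_bound [Finite σ] (hΦ : IsDualForm s Φ) (hc : Compressed s Φ) (hs : 1 ≤ s)
    [Module.Finite k (ApolarAlg Φ)] :
    Module.finrank k (restrictTotalDegree σ k (s / 2)) +
      Module.finrank k (restrictTotalDegree σ k ((s - 1) / 2)) ≤
        Module.finrank k (ApolarAlg Φ) := by
  refine isotropic_bound Φ (restrictTotalDegree σ k (s / 2)).subtype
    (restrictTotalDegree σ k ((s - 1) / 2)).subtype ?_ ?_ ?_
  · rintro ⟨F, hF⟩ h
    rw [mem_restrictTotalDegree] at hF
    have hF' : 2 * F.totalDegree ≤ s := by omega
    exact Subtype.ext (eq_zero_of_compressed hΦ hc h hF')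
  · rintro ⟨F, hF⟩ h
    rw [mem_restrictTotalDegree] at hF
    have hF' : 2 * F.totalDegree ≤ s := by omega
    exact Subtype.ext (eq_zero_of_compressed hΦ hc h hF')
  · rintro ⟨F, hF⟩ ⟨G, hG⟩
    rw [mem_restrictTotalDegree] at hF hG
    refine dual_low hΦ ?_
    have := totalDegree_mul F G
    change (F * G).totalDegree < s
    omega

/-- The values at the points. -/
noncomputable def evp {N : ℕ} (P : Fin N → σ → k) : MvPolynomial σ k →ₗ[k] (Fin N → k) :=
  LinearMap.pi fun i => (aeval (P i) : MvPolynomial σ k →ₐ[k] k).toLinearMap

theorem evp_apply {N : ℕ} (P : Fin N → σ → k) (F : MvPolynomial σ k) (i : Fin N) :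
    evp P F i = eval (P i) F := rfl

theorem hasSec_stable [Finite σ] [IsAlgClosed k] (h2 : (2 : k) ≠ 0) (hΦ : IsDualForm s Φ)
    (hc : Compressed s Φ) (hs : 1 ≤ s) [Module.Finite k (ApolarAlg Φ)] {c : ℕ}
    [Module.Finite k (ApolarAlg (quadSum Φ c))]
    (hcub : HasCub s Φ (Module.finrank k (ApolarAlg Φ) + c)) :
    HasSec k (ApolarAlg (quadSum Φ c)) (Fin (Module.finrank k (ApolarAlg Φ) + c)) := by
  obtain ⟨P, α, hα, H⟩ := hcub
  have hb := compressed_bound hΦ hc hs
  have hprod : ∀ (F G : MvPolynomial σ k), wform α (evp P F) (evp P G) =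
      ∑ i, α i * eval (P i) (F * G) := by
    intro F G
    rw [wform_apply]
    refine Finset.sum_congr rfl fun i _ => ?_
    rw [evp_apply, evp_apply, map_mul]
  have key := exists_orthonormal h2 hα ((restrictTotalDegree σ k (s / 2)).map (evp P))
    ((restrictTotalDegree σ k ((s - 1) / 2)).map (evp P)) ?_ c ?_
  · obtain ⟨y, hy1, hy2⟩ := key
    have hCub : Cub s Φ P α y := by
      refine ⟨fun n hn F hF => H.1 n hn F hF, fun F hF => H.2 F hF, fun l n hn F hF => ?_,
        fun l l' => hy2 l l'⟩
      refine hy1 l (evp P F) ⟨F, ?_, rfl⟩
      rw [SetLike.mem_coe, mem_restrictTotalDegree]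
      have := hF.totalDegree_le
      omega
    exact hasSec_of_moments _ _ _ (2 * s) (moments hs hΦ hCub)
  · rintro _ ⟨G, hG, rfl⟩ hw
    rw [SetLike.mem_coe, mem_restrictTotalDegree] at hG
    rcases Nat.even_or_odd' s with ⟨n, rfl | rfl⟩
    · have hn : 2 * n / 2 = n := by omega
      rw [hn] at hG hw
      have hGn : homogeneousComponent n G = 0 := by
        refine hc n le_rfl _ (homogeneousComponent_isHomogeneous n G) fun F => ?_
        rw [← sum_homogeneousComponent F, Finset.mul_sum, map_sum]
        refine Finset.sum_eq_zero fun m _ => ?_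
        have hhom := (homogeneousComponent_isHomogeneous n G).mul
          (homogeneousComponent_isHomogeneous m F)
        rcases eq_or_ne m n with rfl | hmn
        · have h1 := hw (evp P (homogeneousComponent m F)) ⟨homogeneousComponent m F, by
            rw [SetLike.mem_coe, mem_restrictTotalDegree]
            exact (homogeneousComponent_isHomogeneous m F).totalDegree_le, rfl⟩
          rw [hprod] at h1
          have h3 : ∀ i, eval (P i) (G * homogeneousComponent m F) =
              ∑ j ∈ Finset.range (G.totalDegree + 1),
                eval (P i) (homogeneousComponent j G * homogeneousComponent m F) := by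
            intro i
            conv_lhs => rw [← sum_homogeneousComponent G, Finset.sum_mul, map_sum]
          simp only [h3, Finset.mul_sum] at h1
          rw [Finset.sum_comm] at h1
          by_cases hm' : m ∈ Finset.range (G.totalDegree + 1)
          · rw [Finset.sum_eq_single m] at h1
            · rw [← H.2 _ (by rw [two_mul]; exact hhom)]
              exact h1
            · intro j hj hjm
              rw [Finset.mem_range] at hj
              exact H.1 (j + m) (by omega) _ ((homogeneousComponent_isHomogeneous j G).mul
                (homogeneousComponent_isHomogeneous m F))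
            · intro h'
              exact absurd hm' h'
          · rw [Finset.mem_range, not_lt] at hm'
            rw [homogeneousComponent_eq_zero _ _ (by omega), zero_mul, map_zero]
        · exact hΦ (n + m) (by omega) _ hhom
      refine ⟨G, ?_, rfl⟩
      rw [SetLike.mem_coe, mem_restrictTotalDegree]
      have h4 : G.totalDegree ≠ n := by
        intro h
        rcases eq_or_ne G 0 with rfl | hG0
        · rw [totalDegree_zero] at h
          omega
        · obtain ⟨e, he, hed⟩ := Finset.exists_mem_eq_sup G.support (support_nonempty.2 hG0)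
            (fun e => Finsupp.degree e)
          have h5 : e.degree = n := by
            rw [← h, totalDegree, ← hed]
            rfl
          have h6 : coeff e (homogeneousComponent n G) = coeff e G := by
            rw [coeff_homogeneousComponent, if_pos h5]
          rw [hGn, coeff_zero] at h6
          exact (mem_support_iff.1 he) h6.symm
      omega
    · have hn : (2 * n + 1 - 1) / 2 = (2 * n + 1) / 2 := by omega
      rw [hn]
      exact ⟨G, by rw [SetLike.mem_coe, mem_restrictTotalDegree]; exact hG, rfl⟩
  · have h3 := Submodule.finrank_map_le (evp P) (restrictTotalDegree σ k (s / 2))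
    have h4 := Submodule.finrank_map_le (evp P) (restrictTotalDegree σ k ((s - 1) / 2))
    omega

end Pool.Agent.H37.CU
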